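import Pool.Agent.P.MP_0ff3a5_nt.TH.Spec

/-! Ratio three halves: the parts together give completeness. -/

namespace Pool.Agent.P.MP_0ff3a5_nt.TH
open Finset Filter Topology

namespace CoreP

lemma nz_add (u : ℕ → ℤ) {i j k : ℕ} (h1 : i ≤ j) (h2 : j ≤ k) :
    nz u i k = nz u i j + nz u j k := by
  unfold nz
  simp only [card_filter]
  rw [sum_Ico_consecutive _ h1 h2]

lemma nz_succ (u : ℕ → ℤ) {i j : ℕ} (h : i ≤ j) :
    nz u i (j + 1) = nz u i j + if 2 * u (j + 1) ≠ 3 * u j then 1 else 0 := by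
  unfold nz
  simp only [card_filter]
  rw [sum_Ico_succ_top h]

/-- The final real-variable argument. -/
lemma fin (G l : ℕ → ℝ) (C1 C2 : ℝ) (hG : ∀ s, G s ≤ 6305 / 10000 * G (s + 1) + C2)
    (hl : ∀ s, G s ≤ l s) (hl2 : ∀ s, l (s + 1) ≤ 1585 / 1000 * l s + 2)
    (hs : ∀ s : ℕ, (s : ℝ) ≤ C1 + 40 * G s) : False := by
  set K : ℝ := C2 / (3695 / 10000) with hK
  have a1 : ∀ s, l s + 4 ≤ (1585 / 1000) ^ s * (l 0 + 4) := fun s => by
    induction s with
    | zero => simp
    | succ s ih => have := hl2 s; rw [pow_succ]; linarith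
  have a2 : ∀ s r, G s - K ≤ (6305 / 10000) ^ r * (G (s + r) - K) := fun s r => by
    induction r with
    | zero => simp
    | succ r ih =>
      refine ih.trans ?_
      rw [pow_succ, mul_assoc, ← add_assoc]
      refine mul_le_mul_of_nonneg_left ?_ (by positivity)
      have := hG (s + r)
      rw [hK]
      linarith
  have a3 : ∀ s, G s - K ≤ 0 := fun s => by
    have t1 : Tendsto (fun r : ℕ => (6305 / 10000 * (1585 / 1000) : ℝ) ^ r *
        ((1585 / 1000) ^ s * (l 0 + 4)) + (6305 / 10000 : ℝ) ^ r * (-4 - K)) atTop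
        (𝓝 (0 * ((1585 / 1000) ^ s * (l 0 + 4)) + 0 * (-4 - K))) :=
      ((tendsto_pow_atTop_nhds_zero_of_lt_one (by norm_num) (by norm_num)).mul_const _).add
        ((tendsto_pow_atTop_nhds_zero_of_lt_one (by norm_num) (by norm_num)).mul_const _)
    rw [zero_mul, zero_mul, add_zero] at t1
    refine ge_of_tendsto' t1 fun r => (a2 s r).trans ?_
    rw [mul_pow, mul_assoc, ← mul_add]
    refine mul_le_mul_of_nonneg_left ?_ (by positivity)
    have b1 := a1 (s + r)
    have b2 := hl (s + r)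
    rw [pow_add] at b1
    linarith
  obtain ⟨s, h⟩ := exists_nat_gt (C1 + 40 * K)
  have := hs s
  have := a3 s
  linarith

/-- The number of nonzero digits is bounded by the decay of the density. -/
lemma decay {u : ℕ → ℤ} (v : ℕ → ℕ) (C n0 : ℕ) (h1 : ∀ n, 2 * v (n + 1) ≤ 3 * v n + 4)
    (h2 : ∀ n ≥ n0, 2 * u (n + 1) ≠ 3 * u n → 38 * v (n + 2) ≤ 81 * v n + C) :
    ∃ C1 : ℝ, ∀ j ≥ n0, (nz u n0 j : ℝ) ≤ C1 - 40 * Real.log ((v j + C + 4) * (2 / 3) ^ j) := by
  set d : ℕ → ℝ := fun n => (v n + C + 4) * (2 / 3) ^ n with hd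
  have p : ∀ n, 0 < d n := fun n => by simp only [hd]; positivity
  have m1 : ∀ n, d (n + 1) ≤ d n := fun n => by
    have b1 : ((2 * v (n + 1) : ℕ) : ℝ) ≤ (3 * v n + 4 : ℕ) := by exact_mod_cast h1 n
    have b2 : (0 : ℝ) ≤ C := Nat.cast_nonneg C
    push_cast at b1
    simp only [hd]
    rw [pow_succ', ← mul_assoc]
    exact mul_le_mul_of_nonneg_right (by linarith) (by positivity)
  have m2 : ∀ n, Real.log (d (n + 1)) ≤ Real.log (d n) := fun n => Real.log_le_log (p _) (m1 n)
  have m3 : ∀ n ≥ n0, 2 * u (n + 1) ≠ 3 * u n →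
      1 ≤ 20 * (Real.log (d n) - Real.log (d (n + 2))) := fun n hn he => by
    have b1 : ((38 * v (n + 2) : ℕ) : ℝ) ≤ (81 * v n + C : ℕ) := by exact_mod_cast h2 n hn he
    have b2 : (0 : ℝ) ≤ C := Nat.cast_nonneg C
    push_cast at b1
    have b3 : d (n + 2) ≤ 18 / 19 * d n := by
      simp only [hd]
      rw [add_comm n 2, pow_add, add_comm 2 n, ← mul_assoc, ← mul_assoc]
      exact mul_le_mul_of_nonneg_right (by linarith) (by positivity)
    have b4 := Real.log_le_log (p _) b3
    rw [Real.log_mul (by norm_num) (p n).ne'] at b4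
    have b5 := Real.log_le_sub_one_of_pos (by norm_num : (0 : ℝ) < 18 / 19)
    linarith
  have m4 : ∀ j ≥ n0, (nz u n0 j : ℝ) ≤
      20 * (2 * Real.log (d n0) - Real.log (d j) - Real.log (d (j + 1))) := fun j hj => by
    induction j, hj using Nat.le_induction with
    | base => have := m2 n0; simp only [nz, Ico_self, filter_empty, card_empty]; push_cast; linarith
    | succ j hj ih =>
      rw [nz_succ u hj]
      have b1 := m2 j
      have b2 := m2 (j + 1)
      split_ifs with he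
      · have := m3 j hj he
        push_cast; linarith
      · push_cast; linarith
  refine ⟨1 + 40 * Real.log (d n0), fun j hj => ?_⟩
  change _ ≤ _ - 40 * Real.log (d j)
  induction j, hj using Nat.le_induction with
  | base => simp only [nz, Ico_self, filter_empty, card_empty]; push_cast; linarith
  | succ j hj _ =>
    rw [nz_succ u hj]
    have b1 := m2 j
    have b2 := m4 j hj
    split_ifs <;> push_cast <;> linarith

/-- The levels of the stages. -/
def lev (u : ℕ → ℤ) (n0 : ℕ) : ℕ → ℕ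
  | 0 => n0
  | s + 1 => lev u n0 s + kk u (lev u n0 s)

lemma lev_ge (u : ℕ → ℤ) (n0 s : ℕ) : n0 ≤ lev u n0 s := by
  induction s with
  | zero => exact le_rfl
  | succ s ih => exact ih.trans (Nat.le_add_right _ _)

end CoreP

open CoreP in
theorem p_Core (h1 : S_Pattern) (h2 : S_Gain) (h3 : S_Ideal) (h4 : S_Stage) (h5 : S_Pol) :
    S_Core := by
  intro u hu ho
  by_contra hc
  obtain ⟨π, Y, ha, hne⟩ := h1 u hu ho hc
  obtain ⟨g1, C, n0, g2⟩ := h2 u π Y hu ha
  obtain ⟨-, -, i3⟩ := h3 u hu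
  obtain ⟨p, hp⟩ := h5
  obtain ⟨C1, hd⟩ := decay (fun n => (Vs u π n).card) C n0 g1 g2
  set g : ℕ → ℝ := fun j => Real.log (u j) - Real.log (As u π j).card with hg
  have c1 : ∀ j, (1 : ℝ) ≤ (As u π j).card := fun j => by exact_mod_cast (hne j).card_pos
  have a1 : ∀ j ≥ n0, (nz u n0 j : ℝ) ≤ C1 + 40 * g j := fun j hj => by
    have b1 := hd j hj
    have b2 : ((As u π j).card : ℝ) ≤ (Vs u π j).card := by
      exact_mod_cast card_le_card (As_subset u π j)
    have b3 := hu.geo j
    have b4 : (0 : ℝ) < (3 / 2) ^ j := by positivity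
    have b5 := c1 j
    have b6 : (0 : ℝ) ≤ C := Nat.cast_nonneg C
    have b7 : Real.log (As u π j).card ≤ Real.log ((Vs u π j).card + C + 4) :=
      Real.log_le_log (by linarith) (by linarith)
    have b8 : Real.log ((3 / 2) ^ j) ≤ Real.log (u j) := Real.log_le_log b4 (by linarith)
    have b9 : ((2 / 3 : ℝ)) ^ j = ((3 / 2) ^ j)⁻¹ := by rw [← inv_pow]; norm_num
    rw [Real.log_mul (by linarith) (by positivity), b9, Real.log_inv] at b1
    simp only [hg]
    linarith
  have a2 : ∀ s, s ≤ nz u n0 (lev u n0 s) := fun s => by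
    induction s with
    | zero => exact Nat.zero_le _
    | succ s ih =>
      have := (i3 (lev u n0 s)).2.2.2.2.1
      rw [lev, nz_add u (lev_ge u n0 s) (Nat.le_add_right _ _)]
      omega
  refine fin (fun s => g (lev u n0 s)) (fun s => Real.log (u (lev u n0 s))) C1
    ((C1 + 1) / 80000 + Real.log 80000 + 64 * Real.log 2) (fun s => ?_) (fun s => ?_)
    (fun s => (i3 (lev u n0 s)).2.2.2.2.2.2.2) fun s => ?_
  · have b1 := h4 u π p (lev u n0 s) hu hp (hne _)
    have b2 := a1 _ (lev_ge u n0 (s + 1))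
    have b3 : ((nz u (lev u n0 s) (lev u n0 (s + 1)) : ℕ) : ℝ) ≤ nz u n0 (lev u n0 (s + 1)) := by
      rw [nz_add (k := lev u n0 (s + 1)) u (lev_ge u n0 s) (Nat.le_add_right _ _)]
      exact_mod_cast Nat.le_add_left _ _
    have b4 := Real.log_le_sub_one_of_pos
      (by positivity : (0 : ℝ) < (nz u (lev u n0 s) (lev u n0 (s + 1)) + 1) / 80000)
    rw [Real.log_div (by positivity) (by norm_num)] at b4
    change g (lev u n0 s) ≤ 63 / 100 * g (lev u n0 (s + 1)) +
      Real.log (nz u (lev u n0 s) (lev u n0 (s + 1)) + 1) + _ at b1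
    linarith
  · have := Real.log_nonneg (c1 (lev u n0 s))
    simp only [hg]
    linarith
  · have b1 : (s : ℝ) ≤ nz u n0 (lev u n0 s) := by exact_mod_cast a2 s
    exact b1.trans (a1 _ (lev_ge u n0 s))

end Pool.Agent.P.MP_0ff3a5_nt.TH
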