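import Pool.Agent.P.MP_0ff3a5_nt.Pattern

/-! Ratio three halves: definitions and basic facts. -/

namespace Pool.Agent.P.MP_0ff3a5_nt.TH
open Finset

/-- integer sequences with ratio about `3/2` -/
structure Sq (u : ℕ → ℤ) : Prop where
  big : 2 ^ 20 ≤ u 0
  dig : ∀ n, |2 * u (n + 1) - 3 * u n| ≤ 2

/-- partial sums -/
def sg (u : ℕ → ℤ) (n : ℕ) : ℤ := ∑ k ∈ range n, u k

/-- the central window of level `n` -/
def Core (u : ℕ → ℤ) (n : ℕ) (y : ℤ) : Prop := u n ≤ 60 * y ∧ 60 * y ≤ 119 * u n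

/-- missing patterns away from the ends are more than `2` apart -/
def Apart (u : ℕ → ℤ) (π : Finset ℤ) (Y : ℤ) : Prop :=
  ∀ n y y', Y ≤ y → y + Y ≤ sg u n → Y ≤ y' → y' + Y ≤ sg u n → MP u π n y → MP u π n y' →
    |y - y'| ≤ 2 → y = y'

open Classical in
/-- positions of the missing pattern in `[0, 2 u n)` -/
noncomputable def Vs (u : ℕ → ℤ) (π : Finset ℤ) (n : ℕ) : Finset ℤ :=
  (Ico 0 (2 * u n)).filter (fun y => MP u π n y)

open Classical in
/-- positions of the missing pattern in the central window -/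
noncomputable def As (u : ℕ → ℤ) (π : Finset ℤ) (n : ℕ) : Finset ℤ :=
  (Ico 0 (2 * u n)).filter (fun y => Core u n y ∧ MP u π n y)

/-- number of nonzero digits in `[i, j)` -/
def nz (u : ℕ → ℤ) (i j : ℕ) : ℕ := ((Ico i j).filter (fun n => 2 * u (n + 1) ≠ 3 * u n)).card

/-- length of the stage above level `j` -/
def kk (u : ℕ → ℤ) (j : ℕ) : ℕ := Nat.log 2 (u j).toNat + 1

/-- one step of the steered chain -/
noncomputable def U (p g : ℝ → ℝ) (y : ℝ) : ℝ :=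
  (1 - p y) * g (3 / 2 * y) + p y * g (3 / 2 * y - 3 / 2)

/-- a good steering rule -/
structure Pol (p : ℝ → ℝ) : Prop where
  nn : ∀ y, 0 ≤ p y
  le : ∀ y, p y ≤ 1
  pos : ∀ y, 0 < p y → 1 + 1 / 48 ≤ y
  lt : ∀ y, p y < 1 → y < 2 - 1 / 48
  bd : ∀ n, 46 ≤ n → ∀ y, 1 / 48 ≤ y → y < 3 - 1 / 48 →
    (U p)^[n] (fun y => (1 - 2 * p y) ^ 2) y ≤ 63 / 100

/-- missing entropy of one binary digit -/
noncomputable def psi (a b : ℝ) : ℝ :=
  a * Real.log a + b * Real.log b - (a + b) * Real.log ((a + b) / 2)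

variable {u : ℕ → ℤ}

lemma Sq.lo (h : Sq u) (n : ℕ) : 3 * u n - 2 ≤ 2 * u (n + 1) := by
  have := abs_le.1 (h.dig n); omega

lemma Sq.hi (h : Sq u) (n : ℕ) : 2 * u (n + 1) ≤ 3 * u n + 2 := by
  have := abs_le.1 (h.dig n); omega

lemma Sq.lin (h : Sq u) (n : ℕ) : u 0 + 1000 * n ≤ u n := by
  induction n with
  | zero => simp
  | succ n ih => have := h.lo n; have := h.big; push_cast; omega

lemma Sq.ge (h : Sq u) (n : ℕ) : 2 ^ 20 ≤ u n := by
  have := h.lin n; have := h.big; omega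

lemma Sq.pos (h : Sq u) (n : ℕ) : 0 < u n := by have := h.ge n; omega

lemma Sq.lt (h : Sq u) (n : ℕ) : u n < u (n + 1) := by
  have := h.lo n; have := h.ge n; omega

lemma Sq.mono (h : Sq u) : StrictMono u := strictMono_nat_of_lt_succ h.lt

lemma Sq.dbl (h : Sq u) (n : ℕ) : u (n + 1) ≤ 2 * u n := by
  have := h.hi n; have := h.ge n; omega

lemma Sq.geo (h : Sq u) (n : ℕ) : (3 / 2 : ℝ) ^ n + 2 ≤ u n := by
  induction n with
  | zero => have : ((2 ^ 20 : ℤ) : ℝ) ≤ u 0 := by exact_mod_cast h.big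
            norm_num at this ⊢; linarith
  | succ n ih =>
    have : ((3 * u n - 2 : ℤ) : ℝ) ≤ (2 * u (n + 1) : ℤ) := by exact_mod_cast h.lo n
    push_cast at this
    rw [pow_succ]; linarith

lemma sg_succ (u : ℕ → ℤ) (n : ℕ) : sg u (n + 1) = sg u n + u n := sum_range_succ _ _

lemma Sq.sg_bd (h : Sq u) (n : ℕ) :
    2 * u n - 2 * u 0 - 2 * n ≤ sg u n ∧ sg u n ≤ 2 * u n - 2 * u 0 + 2 * n := by
  induction n with
  | zero => simp [sg]
  | succ n ih => have := h.lo n; have := h.hi n; rw [sg_succ]; push_cast; omega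

lemma mem_Vs {π : Finset ℤ} {n : ℕ} {y : ℤ} :
    y ∈ Vs u π n ↔ (0 ≤ y ∧ y < 2 * u n) ∧ MP u π n y := by
  simp [Vs]

lemma Sq.mem_As (h : Sq u) {π : Finset ℤ} {n : ℕ} {y : ℤ} :
    y ∈ As u π n ↔ Core u n y ∧ MP u π n y := by
  have := h.pos n
  simp only [As, mem_filter, mem_Ico, Core]
  constructor
  · exact fun h => h.2
  · exact fun h => ⟨⟨by omega, by omega⟩, h⟩

lemma As_subset (u : ℕ → ℤ) (π : Finset ℤ) (n : ℕ) : As u π n ⊆ Vs u π n := by
  intro y hy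
  simp only [As, Vs, mem_filter] at hy ⊢
  exact ⟨hy.1, hy.2.2⟩

lemma MP.down0 {π : Finset ℤ} {n : ℕ} {y : ℤ} (h : MP u π (n + 1) y) : MP u π n y := by
  simpa using h.desc (Nat.le_succ n) (empty_subset _)

lemma MP.down1 {π : Finset ℤ} {n : ℕ} {y : ℤ} (h : MP u π (n + 1) y) : MP u π n (y - u n) := by
  simpa using h.desc (Nat.le_succ n) (F := {n}) (by simp)

end Pool.Agent.P.MP_0ff3a5_nt.TH
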