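import Pool.Agent.P.MP_0ff3a5_nt.TH.Spec

/-! Ratio three halves: from integer sequences to the floor sequences. -/

namespace Pool.Agent.P.MP_0ff3a5_nt.TH
open Finset

namespace Final

lemma sq_of {s : ℝ} (hs : 2 ^ 20 ≤ s) : Sq fun n => ⌊s * (3 / 2) ^ n⌋ := by
  refine ⟨Int.le_floor.2 (by push_cast; linarith), fun n => ?_⟩
  have a1 := Int.floor_le (s * (3 / 2) ^ n)
  have a2 := Int.lt_floor_add_one (s * (3 / 2) ^ n)
  have b1 := Int.floor_le (s * (3 / 2) ^ (n + 1))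
  have b2 := Int.lt_floor_add_one (s * (3 / 2) ^ (n + 1))
  have e : s * (3 / 2) ^ (n + 1) = 3 / 2 * (s * (3 / 2) ^ n) := by ring
  have c1 : ((2 * ⌊s * (3 / 2) ^ (n + 1)⌋ : ℤ) : ℝ) < (3 * ⌊s * (3 / 2) ^ n⌋ + 3 : ℤ) := by
    push_cast; linarith
  have c2 : ((3 * ⌊s * (3 / 2) ^ n⌋ - 2 : ℤ) : ℝ) < (2 * ⌊s * (3 / 2) ^ (n + 1)⌋ : ℤ) := by
    push_cast; linarith
  have d1 := Int.cast_lt.1 c1
  have d2 := Int.cast_lt.1 c2
  rw [abs_le]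
  omega

lemma half {x : ℝ} (h : Even ⌊x⌋) : ⌊x⌋ = 2 * ⌊x / 2⌋ := by
  obtain ⟨w, hw⟩ := h
  have a1 := Int.floor_le x
  have a2 := Int.lt_floor_add_one x
  rw [hw] at a1 a2
  push_cast at a1 a2
  have : ⌊x / 2⌋ = w := Int.floor_eq_iff.2 ⟨by linarith, by linarith⟩
  omega

lemma not_four {u : ℕ → ℤ} (h : Sq u) : ¬ ∀ n, 4 ∣ u n := by
  intro h4
  have e : ∀ n, 2 * u (n + 1) = 3 * u n := fun n => by
    have := h.lo n
    have := h.hi n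
    have := h4 n
    have := h4 (n + 1)
    omega
  have d : ∀ k n, 2 ^ k ∣ u n := by
    intro k
    induction k with
    | zero => simp
    | succ k ih =>
      intro n
      have : (2 : ℤ) ^ (k + 1) ∣ 3 * u n := by
        rw [← e, pow_succ']
        exact mul_dvd_mul_left _ (ih _)
      exact IsCoprime.dvd_of_dvd_mul_left
        (IsCoprime.pow_left (by norm_num [Int.isCoprime_iff_gcd_eq_one])) this
  have h1 := Int.le_of_dvd (h.pos 0) (d (u 0).toNat 0)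
  have h2 : (((u 0).toNat : ℕ) : ℤ) < 2 ^ (u 0).toNat := by exact_mod_cast Nat.lt_two_pow_self
  have := h.pos 0
  omega

lemma main (h : S_Core) {t : ℝ} (ht : 0 < t) (ho : Odd ⌊t⌋) :
    ∃ N : ℤ, ∀ m ≥ N, ∃ F : Finset ℤ, (∀ x ∈ F, ∃ n : ℕ, x = ⌊t * (3 / 2) ^ n⌋) ∧
      ∑ x ∈ F, x = m := by
  obtain ⟨N0, hN⟩ := pow_unbounded_of_one_lt (2 ^ 21 / t) (by norm_num : (1 : ℝ) < 3 / 2)
  rw [div_lt_iff₀ ht, mul_comm] at hN
  have hu : Sq fun n => ⌊t * (3 / 2) ^ N0 * (3 / 2) ^ n⌋ := sq_of (by linarith)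
  have hw : Sq fun n => ⌊t * (3 / 2) ^ N0 / 2 * (3 / 2) ^ n⌋ := sq_of (by linarith)
  have img : ∀ F : Finset ℕ, (∀ x ∈ F.image fun n => ⌊t * (3 / 2) ^ N0 * (3 / 2) ^ n⌋,
      ∃ n : ℕ, x = ⌊t * (3 / 2) ^ n⌋) ∧
      ∑ x ∈ F.image fun n => ⌊t * (3 / 2) ^ N0 * (3 / 2) ^ n⌋, x =
        ∑ n ∈ F, ⌊t * (3 / 2) ^ N0 * (3 / 2) ^ n⌋ := fun F => by
    refine ⟨fun x hx => ?_, sum_image fun a _ b _ e => hu.mono.injective e⟩
    obtain ⟨n, -, rfl⟩ := mem_image.1 hx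
    exact ⟨N0 + n, by rw [pow_add, mul_assoc]⟩
  by_cases hodd : ∃ n, Odd ⌊t * (3 / 2) ^ N0 * (3 / 2) ^ n⌋
  · obtain ⟨N, hc⟩ := h _ hu hodd
    refine ⟨N, fun m hm => ?_⟩
    obtain ⟨F, hF⟩ := hc m hm
    exact ⟨_, (img F).1, (img F).2.trans hF⟩
  · have ev : ∀ n, Even ⌊t * (3 / 2) ^ N0 * (3 / 2) ^ n⌋ := fun n =>
      Int.not_odd_iff_even.1 fun hh => hodd ⟨n, hh⟩
    have db : ∀ n, ⌊t * (3 / 2) ^ N0 * (3 / 2) ^ n⌋ = 2 * ⌊t * (3 / 2) ^ N0 / 2 * (3 / 2) ^ n⌋ :=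
      fun n => by rw [half (ev n)]; congr 2; ring
    have wo : ∃ n, Odd ⌊t * (3 / 2) ^ N0 / 2 * (3 / 2) ^ n⌋ := by
      by_contra hh
      refine not_four hu fun n => ?_
      obtain ⟨z, hz⟩ := Int.not_odd_iff_even.1 fun a => hh ⟨n, a⟩
      exact ⟨z, by rw [db, hz]; ring⟩
    obtain ⟨N, hc⟩ := h _ hw wo
    have key : ∀ k ≥ N, ∃ F : Finset ℕ, ∑ n ∈ F, ⌊t * (3 / 2) ^ N0 * (3 / 2) ^ n⌋ = 2 * k :=
      fun k hk => by
        obtain ⟨F, hF⟩ := hc k hk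
        exact ⟨F, by rw [← hF, mul_sum]; exact sum_congr rfl fun n _ => db n⟩
    have t0 : 0 ≤ ⌊t⌋ := Int.floor_nonneg.2 ht.le
    refine ⟨2 * N + ⌊t⌋, fun m hm => ?_⟩
    rcases Int.even_or_odd' m with ⟨k, rfl | rfl⟩
    · obtain ⟨F, hF⟩ := key k (by omega)
      exact ⟨_, (img F).1, (img F).2.trans hF⟩
    · obtain ⟨c, hc⟩ := id ho
      obtain ⟨F, hF⟩ := key (k - c) (by omega)
      refine ⟨insert ⌊t⌋ (F.image fun n => ⌊t * (3 / 2) ^ N0 * (3 / 2) ^ n⌋), fun x hx => ?_, ?_⟩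
      · rcases mem_insert.1 hx with rfl | hx
        · exact ⟨0, by simp⟩
        · exact (img F).1 x hx
      · rw [sum_insert, (img F).2, hF]
        · omega
        · intro hx
          obtain ⟨n, -, e⟩ := mem_image.1 hx
          exact Int.not_odd_iff_even.2 (e ▸ ev n) ho

end Final

theorem p_Final (h : S_Core) : S_Final := by
  intro α r _ hr t ht
  constructor
  · rintro ⟨N, hN⟩
    by_contra hh
    obtain ⟨F, h1, h2⟩ := hN (2 * |N| + 1) (by have := le_abs_self N; have := abs_nonneg N; omega)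
    have : Even (∑ x ∈ F, x) := even_sum _ fun x hx => by
      obtain ⟨n, rfl⟩ := h1 x hx
      exact Int.not_odd_iff_even.1 fun a => hh ⟨n, a⟩
    rw [h2] at this
    exact Int.not_odd_iff_even.2 this (odd_two_mul_add_one _)
  · rintro ⟨s, hs⟩
    obtain ⟨N, hN⟩ := Final.main h (t := t * α ^ s) (by positivity) hs
    refine ⟨N, fun m hm => ?_⟩
    obtain ⟨F, h1, h2⟩ := hN m hm
    refine ⟨F, fun x hx => ?_, h2⟩
    obtain ⟨n, rfl⟩ := h1 x hx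
    exact ⟨s + r * n, by rw [pow_add, pow_mul, hr, mul_assoc]⟩

end Pool.Agent.P.MP_0ff3a5_nt.TH
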