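import Pool.Agent.P.MP_0ff3a5_nt.TH.Spec

/-! Ratio three halves: the gain at a nonzero digit. -/

namespace Pool.Agent.P.MP_0ff3a5_nt.TH
open Finset

namespace Gain

open Classical in
/-- indicator -/
noncomputable def ind (P : Prop) : ℕ := if P then 1 else 0

lemma ind_le (P : Prop) : ind P ≤ 1 := by unfold ind; split_ifs <;> omega

lemma card_ind (s : Finset ℤ) (P : ℤ → Prop) [DecidablePred P] :
    (s.filter P).card = ∑ y ∈ s, ind (P y) := by
  rw [card_filter]
  exact sum_congr rfl fun y _ => by unfold ind; congr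

lemma cut (f : ℤ → ℕ) {c a : ℤ} (hc : 0 ≤ c) (ha : 0 ≤ a) :
    ∑ y ∈ Ico 0 (c + a), f y = ∑ y ∈ Ico 0 c, f y + ∑ y ∈ Ico 0 a, f (y + c) := by
  rw [sum_Ico_add' f 0 a c, zero_add, add_comm a c,
    ← sum_union (Ico_disjoint_Ico_consecutive 0 c (c + a)), Ico_union_Ico_eq_Ico hc (by omega)]

variable {u : ℕ → ℤ} {π : Finset ℤ} {Y : ℤ}

/-- positions of level `n + 1` in `[0, 3 u n)` -/
noncomputable def W (u : ℕ → ℤ) (π : Finset ℤ) (n : ℕ) : ℕ :=
  ∑ y ∈ Ico 0 (u n), (ind (MP u π (n + 1) y) + ind (MP u π (n + 1) (y + u n)) +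
    ind (MP u π (n + 1) (y + 2 * u n)))

/-- full fibres -/
def Fl (u : ℕ → ℤ) (π : Finset ℤ) (n : ℕ) (y : ℤ) : Prop :=
  MP u π (n + 1) y ∧ MP u π (n + 1) (y + u n) ∧ MP u π (n + 1) (y + 2 * u n)

open Classical in
/-- base points of full fibres -/
noncomputable def Full (u : ℕ → ℤ) (π : Finset ℤ) (n : ℕ) : Finset ℤ :=
  (Ico 0 (u n)).filter (Fl u π n)

open Classical in
/-- base points in fibres that are not full -/
noncomputable def Nf (u : ℕ → ℤ) (π : Finset ℤ) (n : ℕ) : Finset ℤ :=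
  (Ico 0 (u n)).filter (fun y => MP u π (n + 1) y ∧ ¬ Fl u π n y)

open Classical in
/-- only the upper point is a position -/
noncomputable def Up (u : ℕ → ℤ) (π : Finset ℤ) (n : ℕ) : Finset ℤ :=
  (Ico 0 (u n)).filter (fun y => MP u π n (y + u n) ∧ ¬ MP u π n y)

lemma V_eq (h : Sq u) (n : ℕ) : (Vs u π n).card =
    ∑ y ∈ Ico 0 (u n), (ind (MP u π n y) + ind (MP u π n (y + u n))) := by
  unfold Vs
  rw [card_ind, two_mul, cut _ (h.pos n).le (h.pos n).le, sum_add_distrib]

lemma V_le (h : Sq u) (n : ℕ) : (Vs u π (n + 1)).card ≤ W u π n + 2 := by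
  have h0 := (h.pos n).le
  have h1 := h.hi n
  unfold Vs W
  rw [card_ind]
  refine (sum_le_sum_of_subset (Ico_subset_Ico_right (b₂ := u n + u n + u n + 2) (by omega))).trans ?_
  rw [cut _ (by omega) (by norm_num), cut _ (by omega) h0, cut _ h0 h0, sum_add_distrib,
    sum_add_distrib, two_mul]
  refine Nat.add_le_add_left ?_ _
  refine (sum_le_card_nsmul _ _ 1 fun y _ => ind_le _).trans ?_
  simp

lemma down (n : ℕ) (y : ℤ) :
    (MP u π (n + 1) y → MP u π n y) ∧ (MP u π (n + 1) (y + u n) → MP u π n y) ∧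
    (MP u π (n + 1) (y + u n) → MP u π n (y + u n)) ∧
    (MP u π (n + 1) (y + 2 * u n) → MP u π n (y + u n)) := by
  refine ⟨MP.down0, fun h => ?_, MP.down0, fun h => ?_⟩
  · simpa using MP.down1 h
  · have := MP.down1 h
    rwa [show y + 2 * u n - u n = y + u n by ring] at this

lemma ineq_a (h : Sq u) (n : ℕ) : 2 * W u π n + (Up u π n).card ≤ 3 * (Vs u π n).card := by
  unfold W Up
  rw [V_eq h, card_ind, mul_sum, mul_sum, ← sum_add_distrib]
  refine sum_le_sum fun y _ => ?_
  obtain ⟨a, b, c, d⟩ := down (u := u) (π := π) n y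
  unfold ind
  split_ifs <;> first | omega | tauto

lemma ineq_b (h : Sq u) (n : ℕ) : W u π n ≤ (Vs u π n).card + (Full u π n).card := by
  unfold W Full
  rw [V_eq h, card_ind, ← sum_add_distrib]
  refine sum_le_sum fun y _ => ?_
  obtain ⟨a, b, c, d⟩ := down (u := u) (π := π) n y
  unfold ind Fl
  split_ifs <;> first | omega | tauto

lemma ineq_c (n : ℕ) : (Nf u π n).card + 3 * (Full u π n).card ≤ W u π n := by
  unfold W Full Nf
  rw [card_ind, card_ind, mul_sum, ← sum_add_distrib]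
  refine sum_le_sum fun y _ => ?_
  unfold ind Fl
  split_ifs <;> first | omega | tauto

/-- the rotation -/
def rot (a a' y : ℤ) : ℤ := if y < a - a' then y + 2 * a' - a else y + a' - a

lemma chain (h : Sq u) (hA : Apart u π Y) {n : ℕ} (hn : Y.natAbs + 2 ≤ n)
    (he : 2 * u (n + 1) ≠ 3 * u n) {y : ℤ} (hy : y ∈ Full u π n) :
    y ∈ Ico (0 : ℤ) (Y.natAbs + 2) ∨ rot (u (n + 1)) (u n) y ∈ Up u π (n + 1) ∨
      rot (u (n + 1)) (u n) y ∈ Nf u π n ∨ y - (2 * u (n + 1) - 3 * u n) ∈ Up u π (n + 1) := by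
  by_contra hh
  simp only [Full, Up, Nf, mem_filter, mem_Ico, not_or, not_and, not_not] at hy hh
  obtain ⟨⟨y0, y1⟩, f1, f2, f3⟩ := hy
  obtain ⟨k0, k1, k2, k3⟩ := hh
  have b0 := h.lo n
  have b1 := h.hi n
  have b2 := h.ge n
  have b3 := h.lin n
  have b4 := (h.sg_bd n).1
  have b5 := sg_succ u n
  have k0' := k0 y0
  have key : MP u π (n + 1) (y - (2 * u (n + 1) - 3 * u n) + u (n + 1)) := by
    unfold rot at k1 k2
    split_ifs at k1 k2 with hc
    · have a1 := k1 ⟨by omega, by omega⟩ (by rwa [sub_add_cancel])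
      have a2 := (k2 ⟨by omega, by omega⟩ a1).2.1
      rwa [show y + 2 * u n - u (n + 1) + u n = y - (2 * u (n + 1) - 3 * u n) + u (n + 1) by ring]
        at a2
    · have a1 := k1 ⟨by omega, by omega⟩ (by rwa [sub_add_cancel])
      have a2 := (k2 ⟨by omega, by omega⟩ a1).2.2
      rwa [show y + u n - u (n + 1) + 2 * u n = y - (2 * u (n + 1) - 3 * u n) + u (n + 1) by ring]
        at a2
  have a3 := k3 ⟨by omega, by omega⟩ key
  have a4 := hA (n + 1) y _ (by omega) (by omega) (by omega) (by omega) f1 a3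
    (by rw [sub_sub_cancel]; exact h.dig n)
  omega

lemma ineq_d (h : Sq u) (hA : Apart u π Y) {n : ℕ} (hn : Y.natAbs + 2 ≤ n)
    (he : 2 * u (n + 1) ≠ 3 * u n) :
    (Full u π n).card ≤ 2 * (Up u π (n + 1)).card + (Nf u π n).card + (Y.natAbs + 2) := by
  classical
  have inj : ∀ T : Finset ℤ,
      ((Full u π n).filter fun y => rot (u (n + 1)) (u n) y ∈ T).card ≤ T.card := fun T => by
    refine card_le_card_of_injOn (rot (u (n + 1)) (u n)) (fun y hy => (mem_filter.1 hy).2) ?_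
    intro y hy z hz e
    have a1 := mem_Ico.1 (mem_filter.1 (mem_filter.1 (mem_coe.1 hy)).1).1
    have a2 := mem_Ico.1 (mem_filter.1 (mem_filter.1 (mem_coe.1 hz)).1).1
    unfold rot at e
    split_ifs at e <;> omega
  have i3 : ((Full u π n).filter
      fun y => y - (2 * u (n + 1) - 3 * u n) ∈ Up u π (n + 1)).card ≤ (Up u π (n + 1)).card :=
    card_le_card_of_injOn (fun y => y - (2 * u (n + 1) - 3 * u n))
      (fun y hy => (mem_filter.1 hy).2) fun y _ z _ e => sub_left_inj.1 e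
  have i0 : (Ico (0 : ℤ) (Y.natAbs + 2)).card = Y.natAbs + 2 := by
    rw [Int.card_Ico]; omega
  have sub : Full u π n ⊆ Ico (0 : ℤ) (Y.natAbs + 2) ∪
      (((Full u π n).filter fun y => rot (u (n + 1)) (u n) y ∈ Up u π (n + 1)) ∪
      (((Full u π n).filter fun y => rot (u (n + 1)) (u n) y ∈ Nf u π n) ∪
      ((Full u π n).filter fun y => y - (2 * u (n + 1) - 3 * u n) ∈ Up u π (n + 1)))) := by
    intro y hy
    have := chain h hA hn he hy
    simp only [mem_union, mem_filter]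
    tauto
  have c0 := (card_le_card sub).trans ((card_union_le _ _).trans (Nat.add_le_add_left
    ((card_union_le _ _).trans (Nat.add_le_add_left (card_union_le _ _) _)) _))
  have := inj (Up u π (n + 1))
  have := inj (Nf u π n)
  omega

end Gain

theorem p_Gain : S_Gain := by
  intro u π Y h hA
  refine ⟨fun n => ?_, 190 + 10 * (Y.natAbs + 2), Y.natAbs + 2, fun n hn he => ?_⟩
  · have := Gain.V_le (π := π) h n
    have := Gain.ineq_a (π := π) h n
    omega
  · have := Gain.V_le (π := π) h n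
    have := Gain.V_le (π := π) h (n + 1)
    have := Gain.ineq_a (π := π) h n
    have := Gain.ineq_a (π := π) h (n + 1)
    have := Gain.ineq_b (π := π) h n
    have := Gain.ineq_c (u := u) (π := π) n
    have := Gain.ineq_d h hA hn he
    simp only [add_assoc, Nat.reduceAdd] at *
    omega

end Pool.Agent.P.MP_0ff3a5_nt.TH
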