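import Pool.Agent.P.MP_0ff3a5_nt.TH.Spec

/-! Ratio three halves: comparison with the ideal geometric sequence. -/

namespace Pool.Agent.P.MP_0ff3a5_nt.TH
open Finset

namespace IdealP

variable {u : ℕ → ℤ}

/-- the distance to the ideal sequence ending at level `m` -/
noncomputable def dl (u : ℕ → ℤ) (m i : ℕ) : ℝ := (u i : ℝ) - (2 / 3) ^ (m - i) * u m

theorem dl_step {m i : ℕ} (hi : i < m) :
    3 * dl u m i = 2 * dl u m (i + 1) - ((2 * u (i + 1) - 3 * u i : ℤ) : ℝ) := by
  unfold dl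
  rw [show m - i = m - (i + 1) + 1 by omega, pow_succ]
  push_cast
  ring

theorem nz_step {m i : ℕ} (hi : i < m) :
    nz u i m = nz u (i + 1) m + if 2 * u (i + 1) ≠ 3 * u i then 1 else 0 := by
  unfold nz
  rw [← insert_Ico_add_one_left_eq_Ico hi, filter_insert]
  split_ifs
  · rw [card_insert_of_notMem (by simp)]
  · rfl

theorem key (h : Sq u) (m j : ℕ) (hj : j ≤ m) :
    |dl u m j| ≤ 2 ∧ ∑ i ∈ Ico j m, |dl u m i| + 2 * |dl u m j| ≤ 2 * nz u j m := by
  induction hj using Nat.decreasingInduction with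
  | self => simp [dl]
  | of_succ k hk ih =>
    obtain ⟨i1, i2⟩ := ih
    have e1 := dl_step (u := u) hk
    have e2 : |((2 * u (k + 1) - 3 * u k : ℤ) : ℝ)| ≤ 2 := by exact_mod_cast h.dig k
    have e3 : 3 * |dl u m k| ≤
        2 * |dl u m (k + 1)| + |((2 * u (k + 1) - 3 * u k : ℤ) : ℝ)| := by
      have a1 : 3 * |dl u m k| = |3 * dl u m k| := by rw [abs_mul]; norm_num
      have a2 : 2 * |dl u m (k + 1)| = |2 * dl u m (k + 1)| := by rw [abs_mul]; norm_num
      rw [a1, a2, e1]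
      exact abs_sub _ _
    refine ⟨by linarith, ?_⟩
    rw [sum_eq_sum_Ico_succ_bot hk, nz_step hk]
    split_ifs with hh
    · push_cast at *; linarith
    · have e4 : 2 * u (k + 1) - 3 * u k = 0 := by omega
      rw [e4] at e3
      simp only [Int.cast_zero, abs_zero, add_zero] at e3 ⊢
      linarith

theorem pow_big (l : ℕ) (hl : 20 ≤ l) : 1000 * (2 * (l + 1) + 4) ≤ 2 ^ l := by
  induction l, hl using Nat.le_induction with
  | base => norm_num
  | succ l hl ih => rw [pow_succ]; omega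

theorem nz_pos (h : Sq u) (j k : ℕ) (hk : u j < 2 ^ k) : 1 ≤ nz u j (j + k) := by
  by_contra hn
  have h0 : ∀ n ∈ Ico j (j + k), 2 * u (n + 1) = 3 * u n := by
    have : nz u j (j + k) = 0 := by omega
    unfold nz at this
    rw [card_eq_zero, filter_eq_empty_iff] at this
    exact fun n hn => not_not.1 (this hn)
  have h1 : ∀ d, d ≤ k → 2 ^ d * u (j + d) = 3 ^ d * u j := by
    intro d
    induction d with
    | zero => simp
    | succ d ih =>
      intro hd
      have a1 := ih (by omega)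
      have a2 := h0 (j + d) (mem_Ico.2 ⟨by omega, by omega⟩)
      rw [← add_assoc, pow_succ, pow_succ, mul_assoc, a2]
      linear_combination 3 * a1
  have h2 : (2 : ℤ) ^ k ∣ 3 ^ k * u j := ⟨_, (h1 k le_rfl).symm⟩
  have h3 : IsCoprime ((2 : ℤ) ^ k) (3 ^ k) := IsCoprime.pow ⟨-1, 1, by norm_num⟩
  exact absurd (Int.le_of_dvd (h.pos j) (h3.dvd_of_dvd_mul_left h2)) (not_le.2 hk)

theorem log_three : Real.log 3 ≤ 1585 / 1000 * Real.log 2 := by
  have h : (3 : ℝ) ^ 200 ≤ 2 ^ (200 + 117) := by rw [pow_add]; norm_num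
  have := Real.log_le_log (by positivity) h
  rw [Real.log_pow, Real.log_pow] at this
  push_cast at this
  linarith

end IdealP

open IdealP in
theorem p_Ideal : S_Ideal := by
  intro u h
  refine ⟨fun i m hi => (key h m i hi).1, fun j m => ?_, fun j => ?_⟩
  · rcases le_total j m with hj | hj
    · have := (key h m j hj).2
      have h2 := abs_nonneg (dl u m j)
      unfold dl at this h2
      linarith
    · rw [Ico_eq_empty_of_le hj, sum_empty]; positivity
  have ha : ((u j).toNat : ℤ) = u j := Int.toNat_of_nonneg (h.pos j).le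
  have hb := h.ge j
  have a0 : 2 ^ 20 ≤ (u j).toNat := by omega
  have a1 : 20 ≤ Nat.log 2 (u j).toNat := Nat.le_log_of_pow_le one_lt_two a0
  have a2 : 2 ^ Nat.log 2 (u j).toNat ≤ (u j).toNat := Nat.pow_log_le_self 2 (by omega)
  have a3 := Nat.lt_pow_succ_log_self one_lt_two (u j).toNat
  unfold kk
  generalize Nat.log 2 (u j).toNat = l at a1 a2 a3
  have a4 := pow_big l a1
  have b2 : 2 ^ l ≤ u j := by rw [← ha]; exact_mod_cast a2
  have b3 : u j < 2 ^ (l + 1) := by rw [← ha]; exact_mod_cast a3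
  have b4 : 1000 * (2 * ((l + 1 : ℕ) : ℤ) + 4) ≤ 2 ^ l := by exact_mod_cast a4
  have c1 := abs_le.1 (key h (j + (l + 1)) j (Nat.le_add_right _ _)).1
  unfold dl at c1
  rw [Nat.add_sub_cancel_left] at c1
  have c2 : (2 : ℝ) ^ l ≤ u j := by exact_mod_cast b2
  have c3 : (u j : ℝ) ≤ 2 ^ (l + 1) := by exact_mod_cast b3.le
  have c4 : (4 : ℝ) ≤ 2 ^ l := by
    have : (4 : ℤ) ≤ 2 ^ l := by push_cast at b4; omega
    exact_mod_cast this
  have c5 : (0 : ℝ) < u (j + (l + 1)) := by exact_mod_cast h.pos _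
  have e1 : (2 / 3 : ℝ) ^ (l + 1) * 3 ^ (l + 1) = 2 * 2 ^ l := by
    rw [← mul_pow, pow_succ']; norm_num
  have p1 : (0 : ℝ) < (2 / 3) ^ (l + 1) := by positivity
  rw [pow_succ'] at c3
  have d1 : (3 : ℝ) ^ (l + 1) ≤ 4 * u (j + (l + 1)) :=
    le_of_mul_le_mul_left (by rw [e1]; linarith [c1.2]) p1
  have d2 : 2 * (u (j + (l + 1)) : ℝ) ≤ 3 * 3 ^ (l + 1) :=
    le_of_mul_le_mul_left (by rw [mul_left_comm _ 3, e1]; linarith [c1.1]) p1
  refine ⟨by omega, by simpa using b2, b3, b4.trans b2, nz_pos h j _ b3, d1, d2, ?_⟩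
  have f1 : Real.log (u (j + (l + 1))) ≤ Real.log (3 / 2 * 3 ^ (l + 1)) :=
    Real.log_le_log c5 (by linarith)
  rw [Real.log_mul (by norm_num) (by positivity), Real.log_pow] at f1
  have f2 := Real.log_le_log (by positivity) c2
  rw [Real.log_pow] at f2
  have f3 := Real.log_le_sub_one_of_pos (by norm_num : (0 : ℝ) < 3 / 2)
  have f4 := log_three
  have f5 := Real.log_two_lt_d9
  have f6 : (l : ℝ) * Real.log 3 ≤ l * (1585 / 1000 * Real.log 2) :=
    mul_le_mul_of_nonneg_left f4 (Nat.cast_nonneg l)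
  push_cast at f1
  linarith

end Pool.Agent.P.MP_0ff3a5_nt.TH
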