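import Pool.Agent.P.MP_0ff3a5_nt.TH.Spec

/-! Ratio three halves: a separated missing pattern in every central window. -/

namespace Pool.Agent.P.MP_0ff3a5_nt.TH
open Finset

namespace Pat

variable {u : ℕ → ℤ}

/-- the pattern is missing at places far from both ends -/
def Pers (u : ℕ → ℤ) (π : Finset ℤ) : Prop :=
  ∀ Y : ℤ, ∃ n y, Y ≤ y ∧ y + Y ≤ sg u n ∧ MP u π n y

lemma sg_mono (h : Sq u) : Monotone (sg u) :=
  monotone_nat_of_le_succ fun n => by have := h.pos n; rw [sg_succ]; omega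

lemma sg_nonneg (h : Sq u) (n : ℕ) : 0 ≤ sg u n := sum_nonneg fun k _ => (h.pos k).le

lemma sg_split (u : ℕ → ℤ) {N n : ℕ} (hn : N ≤ n) : sg u n = sg u N + ∑ k ∈ Ico N n, u k := by
  unfold sg
  rw [sum_range_add_sum_Ico _ hn]

lemma pers_zero (h : Sq u) (hc : ¬ Cpl u) : Pers u {0} := by
  intro Y
  unfold Cpl at hc
  push Not at hc
  obtain ⟨m, hm, hF⟩ := hc Y
  refine ⟨(m + Y).toNat, m, hm, ?_, fun p hp F _ e => ?_⟩
  · have h1 := (h.sg_bd (m + Y).toNat).1
    have h2 := h.lin (m + Y).toNat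
    omega
  · rw [mem_singleton.1 hp] at e
    exact hF F (by simpa using e)

lemma no_ap (h : Sq u) {r : ℕ} (hr : Odd (u r)) : ∃ L : ℕ, ∀ π : Finset ℤ, Pers u π →
    (¬ ∀ k : ℕ, k ≤ L → (k : ℤ) ∈ π) ∧ ¬ ∀ k : ℕ, k ≤ L → (k * 2 : ℤ) ∈ π := by
  refine ⟨(u (r + 1) + u r).toNat, fun π hπ => ?_⟩
  obtain ⟨n, y, y1, y2, hm⟩ := hπ (sg u (r + 1) + 1)
  have s0 := sg_nonneg h (r + 1)
  have hn : r + 1 ≤ n := by
    by_contra hn
    have := sg_mono h (show n ≤ r + 1 by omega)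
    omega
  have e := sg_split u hn
  have p1 := h.pos (r + 1)
  have p0 := h.pos r
  obtain ⟨F, hF, f1, f2⟩ := (synd (fun n => (h.pos n).le) h.dbl (r + 1) n hn).2 (y + u (r + 1))
    (by omega) (by omega)
  have hFn : F ⊆ range n := fun k hk => mem_range.2 (mem_Ico.1 (hF hk)).2
  have hrF : r ∉ F := fun hk => by have := (mem_Ico.1 (hF hk)).1; omega
  have hF' : insert r F ⊆ range n := insert_subset (mem_range.2 (by omega)) hFn
  have hs : ∑ k ∈ insert r F, u k = u r + ∑ k ∈ F, u k := sum_insert hrF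
  constructor
  · intro hk
    refine hm _ (hk (∑ k ∈ F, u k - y).toNat (by omega)) F hFn ?_
    omega
  · intro hk
    obtain ⟨c, hc⟩ := hr
    rcases Int.even_or_odd' (∑ k ∈ F, u k - y) with ⟨a, ha | ha⟩
    · refine hm _ (hk a.toNat (by omega)) F hFn ?_
      omega
    · refine hm _ (hk (a + c + 1).toNat (by omega)) _ hF' ?_
      omega

lemma step {π : Finset ℤ} (hA : ∀ Y, ¬ Apart u π Y) :
    Pers u (π ∪ π.image (· + 1)) ∨ Pers u (π ∪ π.image (· + 2)) := by
  by_contra hn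
  unfold Pers at hn
  push Not at hn
  obtain ⟨⟨Y1, h1⟩, Y2, h2⟩ := hn
  have un : ∀ (d : ℤ) n y, MP u π n y → MP u π n (y + d) → MP u (π ∪ π.image (· + d)) n y := by
    intro d n y v v' p hp
    rcases mem_union.1 hp with hp | hp
    · exact v p hp
    · obtain ⟨q, hq, rfl⟩ := mem_image.1 hp
      have := v' q hq
      rwa [show y + (q + d) = y + d + q by ring]
  have key : ∀ n y y', max Y1 Y2 ≤ y → y + max Y1 Y2 ≤ sg u n → MP u π n y → MP u π n y' →
      y' - y ≤ 2 → ¬ y < y' := by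
    intro n y y' a1 a2 v v' l1 l2
    have m1 := le_max_left Y1 Y2
    have m2 := le_max_right Y1 Y2
    rcases (show y' = y + 1 ∨ y' = y + 2 by omega) with rfl | rfl
    · exact h1 n y (by omega) (by omega) (un 1 n y v v')
    · exact h2 n y (by omega) (by omega) (un 2 n y v v')
  refine hA (max Y1 Y2) fun n y y' a1 a2 a3 a4 v v' l => ?_
  obtain ⟨l1, l2⟩ := abs_le.1 l
  have := key n y y' a1 a2 v v' (by omega)
  have := key n y' y a3 a4 v' v (by omega)
  omega

lemma exists_apart (h : Sq u) (ho : ∃ r, Odd (u r)) (hc : ¬ Cpl u) :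
    ∃ π Y, Pers u π ∧ Apart u π Y := by
  by_contra hn
  push Not at hn
  have ind : ∀ s : ℕ, ∃ π, Pers u π ∧ ∃ a b : ℕ, a + b = s ∧ (∀ k : ℕ, k ≤ a → (k : ℤ) ∈ π) ∧
      ∀ k : ℕ, k ≤ b → (k * 2 : ℤ) ∈ π := by
    intro s
    induction s with
    | zero =>
      refine ⟨{0}, pers_zero h hc, 0, 0, rfl, fun k hk => ?_, fun k hk => ?_⟩ <;>
        simp [show k = 0 by omega]
    | succ s ih =>
      obtain ⟨π, hπ, a, b, e, ha, hb⟩ := ih
      rcases step (fun Y => hn π Y hπ) with hp | hp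
      · refine ⟨_, hp, a + 1, b, by omega, fun k hk => ?_, fun k hk => mem_union_left _ (hb k hk)⟩
        rcases (show k ≤ a ∨ k = a + 1 by omega) with hk | rfl
        · exact mem_union_left _ (ha k hk)
        · exact mem_union_right _ (mem_image.2 ⟨_, ha a le_rfl, by push_cast; ring⟩)
      · refine ⟨_, hp, a, b + 1, by omega, fun k hk => mem_union_left _ (ha k hk), fun k hk => ?_⟩
        rcases (show k ≤ b ∨ k = b + 1 by omega) with hk | rfl
        · exact mem_union_left _ (hb k hk)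
        · exact mem_union_right _ (mem_image.2 ⟨_, hb b le_rfl, by push_cast; ring⟩)
  obtain ⟨r, hr⟩ := ho
  obtain ⟨L, hL⟩ := no_ap h hr
  obtain ⟨π, hπ, a, b, e, ha, hb⟩ := ind (2 * L)
  rcases (show L ≤ a ∨ L ≤ b by omega) with l | l
  · exact (hL π hπ).1 fun k hk => ha k (hk.trans l)
  · exact (hL π hπ).2 fun k hk => hb k (hk.trans l)

lemma core_down (h : Sq u) {π : Finset ℤ} {n : ℕ} (hy : ∃ y, Core u (n + 1) y ∧ MP u π (n + 1) y) :
    ∃ y, Core u n y ∧ MP u π n y := by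
  obtain ⟨y, ⟨c1, c2⟩, hm⟩ := hy
  have := h.lo n
  have := h.hi n
  have := h.ge n
  by_cases hc : 60 * y ≤ 119 * u n
  · exact ⟨y, ⟨by omega, hc⟩, MP.down0 hm⟩
  · exact ⟨y - u n, ⟨by omega, by omega⟩, MP.down1 hm⟩

lemma core_high (h : Sq u) {π : Finset ℤ} (hπ : Pers u π) (N : ℕ) :
    ∃ n ≥ N, ∃ y, Core u n y ∧ MP u π n y := by
  classical
  have s0 := sg_nonneg h N
  have p0 := h.pos 0
  have ex := hπ (u 0 + sg u N)
  obtain ⟨y, y1, y2, hm⟩ := Nat.find_spec ex
  have hmin := fun m => Nat.find_min ex (m := m)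
  generalize Nat.find ex = n at y2 hm hmin
  have hN : N < n := by
    by_contra hn
    have := sg_mono h (show n ≤ N by omega)
    omega
  obtain ⟨m, rfl⟩ : ∃ m, n = m + 1 := ⟨n - 1, by omega⟩
  have hm' := hmin m (by omega)
  push Not at hm'
  rw [sg_succ] at y2
  have a1 : sg u m < y + (u 0 + sg u N) := by
    by_contra hc
    exact hm' y y1 (by omega) (MP.down0 hm)
  have a2 : y - u m < u 0 + sg u N := by
    by_contra hc
    exact hm' (y - u m) (by omega) (by omega) (MP.down1 hm)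
  have b1 := h.sg_bd m
  have b2 := h.lin m
  have b3 := h.lo m
  have b4 := h.hi m
  have b5 := h.big
  exact ⟨m + 1, by omega, y, ⟨by omega, by omega⟩, hm⟩

end Pat

theorem p_Pattern : S_Pattern := by
  intro u h ho hc
  obtain ⟨π, Y, hp, ha⟩ := Pat.exists_apart h ho hc
  refine ⟨π, Y, ha, fun N => ?_⟩
  obtain ⟨n, hn, hy⟩ := Pat.core_high h hp N
  have : ∃ y, Core u N y ∧ MP u π N y := by
    induction n, hn using Nat.le_induction with
    | base => exact hy
    | succ n _ ih => exact ih (Pat.core_down h hy)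
  obtain ⟨y, hy⟩ := this
  exact ⟨y, h.mem_As.2 hy⟩

end Pool.Agent.P.MP_0ff3a5_nt.TH
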