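import Mathlib

/-! Vectors of small numbers packed into one natural number. -/

namespace Pool.Agent.P.MP_0ff3a5_nt.TH.Pk
open Finset

/-- `n` lanes of width `w` -/
def pk (w n : ℕ) (f : ℕ → ℕ) : ℕ := ∑ i ∈ range n, f i * 2 ^ (w * i)

variable {w n : ℕ} {f g : ℕ → ℕ}

lemma pk_congr (h : ∀ i < n, f i = g i) : pk w n f = pk w n g :=
  sum_congr rfl fun i hi => by rw [h i (mem_range.1 hi)]

lemma pk_append (w a b : ℕ) (f : ℕ → ℕ) :
    pk w (a + b) f = pk w a f + 2 ^ (w * a) * pk w b (fun i => f (a + i)) := by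
  rw [pk, sum_range_add, pk, pk, mul_sum]
  congr 1
  exact sum_congr rfl fun i _ => by rw [mul_add, pow_add]; ring

lemma pk_one (w : ℕ) (f : ℕ → ℕ) : pk w 1 f = f 0 := by simp [pk]

lemma pk_succ (w n : ℕ) (f : ℕ → ℕ) :
    pk w (n + 1) f = f 0 + 2 ^ w * pk w n (fun i => f (i + 1)) := by
  rw [add_comm n 1, pk_append, pk_one, mul_one]
  simp only [add_comm 1]

lemma pk_add : pk w n f + pk w n g = pk w n (fun i => f i + g i) := by
  simp only [pk, add_mul, sum_add_distrib]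

lemma pk_mul (c : ℕ) : c * pk w n f = pk w n (fun i => c * f i) := by
  simp only [pk, mul_sum, mul_assoc]

lemma pk_sub (h : ∀ i < n, g i ≤ f i) : pk w n f - pk w n g = pk w n (fun i => f i - g i) := by
  have : pk w n f = pk w n (fun i => f i - g i) + pk w n g := by
    rw [pk_add]; exact pk_congr fun i hi => by have := h i hi; omega
  omega

lemma pk_lt (h : ∀ i < n, f i < 2 ^ w) : pk w n f < 2 ^ (w * n) := by
  induction n generalizing f with
  | zero => simp [pk]
  | succ n ih =>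
    have h1 := ih (f := fun i => f (i + 1)) fun i hi => h _ (by omega)
    have h2 := h 0 (by omega)
    rw [pk_succ, mul_add, mul_one, pow_add]
    nlinarith

lemma land_split {w x y : ℕ} (a b : ℕ) (hx : x < 2 ^ w) (hy : y < 2 ^ w) :
    (x + 2 ^ w * a) &&& (y + 2 ^ w * b) = (x &&& y) + 2 ^ w * (a &&& b) := by
  have hp : 0 < 2 ^ w := by positivity
  rw [← Nat.mod_add_div ((x + 2 ^ w * a) &&& (y + 2 ^ w * b)) (2 ^ w), Nat.and_mod_two_pow,
    Nat.and_div_two_pow, Nat.add_mul_mod_self_left, Nat.add_mul_mod_self_left,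
    Nat.add_mul_div_left _ _ hp, Nat.add_mul_div_left _ _ hp, Nat.mod_eq_of_lt hx,
    Nat.mod_eq_of_lt hy, Nat.div_eq_of_lt hx, Nat.div_eq_of_lt hy, zero_add, zero_add]

lemma pk_land (hf : ∀ i < n, f i < 2 ^ w) (hg : ∀ i < n, g i < 2 ^ w) :
    pk w n f &&& pk w n g = pk w n (fun i => f i &&& g i) := by
  induction n generalizing f g with
  | zero => simp [pk]
  | succ n ih =>
    rw [pk_succ, pk_succ, pk_succ, land_split _ _ (hf 0 (by omega)) (hg 0 (by omega)),
      ih (fun i hi => hf _ (by omega)) (fun i hi => hg _ (by omega))]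

lemma pk_shift (b : ℕ) : pk w n (fun i => 2 ^ b * f i) >>> b = pk w n f := by
  rw [← pk_mul, Nat.shiftRight_eq_div_pow, Nat.mul_div_cancel_left _ (by positivity)]

lemma pk_mod (a b : ℕ) (h : ∀ i < a, f i < 2 ^ w) : pk w (a + b) f % 2 ^ (w * a) = pk w a f := by
  rw [pk_append, Nat.add_mul_mod_self_left, Nat.mod_eq_of_lt (pk_lt h)]

lemma pk_div (a b : ℕ) (h : ∀ i < a, f i < 2 ^ w) :
    pk w (a + b) f >>> (w * a) = pk w b (fun i => f (a + i)) := by
  rw [pk_append, Nat.shiftRight_eq_div_pow, Nat.add_mul_div_left _ _ (by positivity),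
    Nat.div_eq_of_lt (pk_lt h), zero_add]

lemma pk_group (w a n : ℕ) (f : ℕ → ℕ) :
    pk w (a * n) f = pk (w * a) n (fun r => pk w a (fun s => f (a * r + s))) := by
  induction n with
  | zero => simp [pk]
  | succ n ih =>
    rw [mul_add, mul_one, pk_append, ih, pk_append, pk_one, add_zero, mul_assoc]

lemma pk_inj (hf : ∀ i < n, f i < 2 ^ w) (hg : ∀ i < n, g i < 2 ^ w) (h : pk w n f = pk w n g) :
    ∀ i < n, f i = g i := by
  intro i hi
  obtain ⟨b, rfl⟩ : ∃ b, n = i + (b + 1) := ⟨n - i - 1, by omega⟩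
  have e := congrArg (fun x => x >>> (w * i) % 2 ^ w) h
  simp only [pk_div i (b + 1) (fun j hj => hf j (by omega)),
    pk_div i (b + 1) (fun j hj => hg j (by omega)), pk_succ, Nat.add_mul_mod_self_left,
    add_zero] at e
  rwa [Nat.mod_eq_of_lt (hf i hi), Nat.mod_eq_of_lt (hg i hi)] at e

/-- `2 ^ d` lanes of width `P` holding `1` -/
def repd : ℕ → ℕ → ℕ
  | 0, _ => 1
  | d + 1, P => Nat.add (repd d P) (Nat.shiftLeft (repd d P) (Nat.mul P (Nat.pow 2 d)))

lemma repd_eq (d P : ℕ) : repd d P = pk P (2 ^ d) (fun _ => 1) := by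
  induction d with
  | zero => simp [repd, pk]
  | succ d ih =>
    rw [pow_succ, mul_two, pk_append, ← ih, repd]
    change repd d P + repd d P <<< (P * 2 ^ d) = _
    rw [Nat.shiftLeft_eq, mul_comm]

lemma repd_mul (d P x : ℕ) : Nat.mul (repd d P) x = pk P (2 ^ d) (fun _ => x) := by
  change repd d P * x = _
  rw [repd_eq, mul_comm, pk_mul]; simp only [mul_one]

/-- lanewise minimum, lanes of width 22 -/
def minv (hi A B : ℕ) : ℕ :=
  Nat.sub A (Nat.land (Nat.sub (Nat.add A hi) B)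
    (Nat.sub (Nat.land (Nat.sub (Nat.add A hi) B) hi)
      (Nat.shiftRight (Nat.land (Nat.sub (Nat.add A hi) B) hi) 21)))

lemma minv_eq (hf : ∀ i < n, f i < 2 ^ 21) (hg : ∀ i < n, g i < 2 ^ 21) :
    minv (pk 22 n fun _ => 2 ^ 21) (pk 22 n f) (pk 22 n g) =
      pk 22 n (fun i => min (f i) (g i)) := by
  have e1 : pk 22 n f + (pk 22 n fun _ => 2 ^ 21) - pk 22 n g =
      pk 22 n (fun i => f i + 2 ^ 21 - g i) := by
    rw [pk_add, pk_sub fun i hi => by have := hg i hi; omega]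
  have b1 : ∀ i < n, f i + 2 ^ 21 - g i < 2 ^ 22 := fun i hi => by have := hf i hi; omega
  have e2 : pk 22 n (fun i => f i + 2 ^ 21 - g i) &&& (pk 22 n fun _ => 2 ^ 21) =
      pk 22 n (fun i => 2 ^ 21 * if g i ≤ f i then 1 else 0) := by
    rw [pk_land b1 fun _ _ => by norm_num]
    refine pk_congr fun i hi => ?_
    have h1 := hf i hi
    have h2 := hg i hi
    split_ifs with h
    · have := land_split (w := 21) (x := f i - g i) (y := 0) 1 1 (by omega) (by norm_num)
      rw [show f i + 2 ^ 21 - g i = f i - g i + 2 ^ 21 * 1 by omega]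
      simpa using this
    · have := land_split (w := 21) (x := f i + 2 ^ 21 - g i) (y := 0) 0 1 (by omega) (by norm_num)
      simpa using this
  have e3 : pk 22 n (fun i => 2 ^ 21 * if g i ≤ f i then 1 else 0) -
      pk 22 n (fun i => if g i ≤ f i then 1 else 0) =
      pk 22 n (fun i => if g i ≤ f i then 2 ^ 21 - 1 else 0) := by
    rw [pk_sub fun i _ => by split_ifs <;> norm_num]
    exact pk_congr fun i _ => by split_ifs <;> norm_num
  have e4 : pk 22 n (fun i => f i + 2 ^ 21 - g i) &&&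
      pk 22 n (fun i => if g i ≤ f i then 2 ^ 21 - 1 else 0) = pk 22 n (fun i => f i - g i) := by
    rw [pk_land b1 fun i _ => by split_ifs <;> norm_num]
    refine pk_congr fun i hi => ?_
    have h1 := hf i hi
    have h2 := hg i hi
    split_ifs with h
    · rw [Nat.and_two_pow_sub_one_eq_mod]; omega
    · rw [Nat.and_zero]; omega
  change pk 22 n f - ((pk 22 n f + (pk 22 n fun _ => 2 ^ 21) - pk 22 n g) &&&
    (((pk 22 n f + (pk 22 n fun _ => 2 ^ 21) - pk 22 n g) &&& (pk 22 n fun _ => 2 ^ 21)) -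
      ((pk 22 n f + (pk 22 n fun _ => 2 ^ 21) - pk 22 n g) &&& (pk 22 n fun _ => 2 ^ 21)) >>> 21))
    = _
  rw [e1, e2, pk_shift, e3, e4, pk_sub fun i _ => by omega]
  exact pk_congr fun i _ => by omega

/-- closing the gaps between blocks -/
def cmp : List (ℕ × ℕ) → ℕ → ℕ
  | [], X => X
  | (m, k) :: l, X => cmp l (Nat.add (Nat.land X m) (Nat.shiftRight (Nat.sub X (Nat.land X m)) k))

/-- the masks used by `cmp` -/
def masks : ℕ → ℕ → ℕ → List (ℕ × ℕ)
  | 0, _, _ => []
  | d + 1, P, Q => (Nat.mul (repd d (Nat.mul 2 P)) (Nat.sub (Nat.pow 2 P) 1), Nat.sub P Q) ::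
      masks d (Nat.mul 2 P) (Nat.mul 2 Q)

lemma pk_two (w : ℕ) (f : ℕ → ℕ) : pk w 2 f = f 0 + 2 ^ w * f 1 := by
  rw [pk_succ, pk_one]

lemma cmp_eq (d : ℕ) : ∀ (P Q : ℕ) (g : ℕ → ℕ), Q ≤ P → (∀ i < 2 ^ d, g i < 2 ^ Q) →
    cmp (masks d P Q) (pk P (2 ^ d) g) = pk Q (2 ^ d) g := by
  induction d with
  | zero => intro P Q g _ _; simp [masks, cmp, pk]
  | succ d ih =>
    intro P Q g hQ hg
    have hp : 2 ^ Q ≤ 2 ^ P := Nat.pow_le_pow_right (by norm_num) hQ
    have g0 : ∀ r < 2 ^ d, g (2 * r) < 2 ^ Q := fun r hr => hg _ (by rw [pow_succ]; omega)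
    have g1 : ∀ r < 2 ^ d, g (2 * r + 1) < 2 ^ Q := fun r hr => hg _ (by rw [pow_succ]; omega)
    have e0 : ∀ w, pk w (2 ^ (d + 1)) g =
        pk (2 * w) (2 ^ d) (fun r => g (2 * r) + 2 ^ w * g (2 * r + 1)) := fun w => by
      rw [pow_succ', pk_group, mul_comm w 2]; simp only [pk_two, add_zero]
    have e1 : pk (2 * P) (2 ^ d) (fun r => g (2 * r) + 2 ^ P * g (2 * r + 1)) &&&
        pk (2 * P) (2 ^ d) (fun _ => 2 ^ P - 1) = pk (2 * P) (2 ^ d) (fun r => g (2 * r)) := by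
      have hP : 0 < 2 ^ P := by positivity
      rw [pk_land]
      · refine pk_congr fun r hr => ?_
        rw [Nat.and_two_pow_sub_one_eq_mod, Nat.add_mul_mod_self_left,
          Nat.mod_eq_of_lt ((g0 r hr).trans_le hp)]
      · intro r hr
        have := (g0 r hr).trans_le hp
        have := (g1 r hr).trans_le hp
        rw [two_mul P, pow_add]; nlinarith
      · intro r _
        rw [two_mul P, pow_add]
        have : 2 ^ P ≤ 2 ^ P * 2 ^ P := Nat.le_mul_of_pos_left _ hP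
        omega
    have e2 : pk (2 * P) (2 ^ d) (fun r => g (2 * r) + 2 ^ P * g (2 * r + 1)) -
        pk (2 * P) (2 ^ d) (fun r => g (2 * r)) =
        pk (2 * P) (2 ^ d) (fun r => 2 ^ (P - Q) * (2 ^ Q * g (2 * r + 1))) := by
      rw [pk_sub fun r _ => by omega]
      refine pk_congr fun r _ => ?_
      rw [← mul_assoc, ← pow_add, Nat.sub_add_cancel hQ]; omega
    rw [masks, cmp, repd_mul, e0 P, e0 Q]
    change cmp (masks d (2 * P) (2 * Q))
      ((pk (2 * P) (2 ^ d) (fun r => g (2 * r) + 2 ^ P * g (2 * r + 1)) &&&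
        pk (2 * P) (2 ^ d) (fun _ => 2 ^ P - 1)) +
      (pk (2 * P) (2 ^ d) (fun r => g (2 * r) + 2 ^ P * g (2 * r + 1)) -
        (pk (2 * P) (2 ^ d) (fun r => g (2 * r) + 2 ^ P * g (2 * r + 1)) &&&
        pk (2 * P) (2 ^ d) (fun _ => 2 ^ P - 1))) >>> (P - Q)) = _
    rw [e1, e2, pk_shift, pk_add]
    refine ih _ _ _ (by omega) fun r hr => ?_
    have := g0 r hr
    have := g1 r hr
    rw [two_mul Q, pow_add]; nlinarith

end Pool.Agent.P.MP_0ff3a5_nt.TH.Pk
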