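import Pool.Agent.P.MP_0ff3a5_nt.TH.Run

/-! Meaning of the packed iteration. -/

namespace Pool.Agent.P.MP_0ff3a5_nt.TH.Pk

attribute [local irreducible] pk repd minv cmp masks

lemma pk_zero (w n : ℕ) : pk w n (fun _ => 0) = 0 := by
  have := pk_mul (w := w) (n := n) (f := fun _ => 0) 0
  simpa using this.symm

/-- odds on the piece `c` of `[0,3)` -/
def PP (c : ℕ) : ℕ := if c < 96 then 0 else if c < 192 then pol.getD (c - 96) 0 else 64

def mv (g : ℕ → ℕ) (c j : ℕ) : ℕ :=
  if c < 96 then g j else if c < 192 then ((64 - PP c) * g j + PP c * g (j - 147456)) / 64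
  else g (j - 147456)

def stp (g : ℕ → ℕ) (i : ℕ) : ℕ :=
  min (mv g (i / 1024) (3 * i / 2)) (mv g (i / 1024) (3 * i / 2 + 1))

def gi : ℕ → ℕ → ℕ
  | 0 => fun i => 32 * (PP (i / 1024) * (64 - PP (i / 1024)))
  | t + 1 => stp (gi t)

lemma pol_le : ∀ c < 96, pol.getD c 0 ≤ 64 ∧ (0 < pol.getD c 0 → 2 ≤ c) ∧
    (pol.getD c 0 < 64 → c < 94) := by decide

lemma PP_le (c : ℕ) : PP c ≤ 64 ∧ (0 < PP c → 98 ≤ c) ∧ (PP c < 64 → c < 190) := by
  unfold PP
  split_ifs with h1 h2
  · omega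
  · have := pol_le (c - 96) (by omega); omega
  · omega

lemma mix_le {p a b B : ℕ} (hp : p ≤ 64) (ha : a ≤ B) (hb : b ≤ B) :
    (64 - p) * a + p * b ≤ 64 * B := by
  calc _ ≤ (64 - p) * B + p * B := by gcongr
    _ = _ := by rw [← add_mul, Nat.sub_add_cancel hp]

lemma mv_le {g : ℕ → ℕ} (h : ∀ i, g i ≤ 2 ^ 15) (c j : ℕ) : mv g c j ≤ 2 ^ 15 := by
  unfold mv
  split_ifs
  · exact h _
  · have := mix_le (PP_le c).1 (h j) (h (j - 147456)); omega
  · exact h _

lemma gi_le (t : ℕ) : ∀ i, gi t i ≤ 2 ^ 15 := by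
  induction t with
  | zero =>
    intro i
    have : ∀ p ≤ 64, 32 * (p * (64 - p)) ≤ 2 ^ 15 := by decide
    exact this _ (PP_le _).1
  | succ t ih => exact fun i => (min_le_left _ _).trans (mv_le ih _ _)

lemma pk_three (w : ℕ) (f : ℕ → ℕ) : pk w 3 f = f 0 + 2 ^ w * (f 1 + 2 ^ w * f 2) := by
  rw [pk_succ, pk_two]

lemma const3 (x y : ℕ) (h : y = x + 2 ^ 22 * (x + 2 ^ 22 * x)) :
    Nat.mul (repd 9 66) y = pk 22 1536 (fun _ => x) := by
  rw [repd_mul, show 1536 = 3 * 2 ^ 9 by norm_num, pk_group, pk_three, h]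

lemma pk_tail {w : ℕ} (n : ℕ) {f : ℕ → ℕ} (h : f 0 < 2 ^ w) :
    pk w (n + 1) f >>> w = pk w (n + 1) (fun i => if i < n then f (i + 1) else 0) := by
  have b := pk_append w n 1 (fun i => if i < n then f (i + 1) else 0)
  rw [pk_one, if_neg (by omega), mul_zero, add_zero] at b
  rw [b, pk_succ, Nat.shiftRight_eq_div_pow, Nat.add_mul_div_left _ _ (by positivity),
    Nat.div_eq_of_lt h, zero_add]
  exact pk_congr fun i hi => by rw [if_pos hi]

lemma hi3_eq : hi3 = pk 22 1536 (fun _ => 2 ^ 21) :=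
  const3 (2 ^ 21) (2 ^ 21 + 2 ^ 43 + 2 ^ 65) (by norm_num)

lemma tm_eq : tm = pk 22 1536 (fun _ => 2 ^ 22 - 2 ^ 6) :=
  const3 (2 ^ 22 - 2 ^ 6) ((2 ^ 22 - 2 ^ 6) * (1 + 2 ^ 22 + 2 ^ 44)) (by norm_num)

lemma pm_eq : pm = pk 66 (2 ^ 9) (fun _ => 2 ^ 44 - 1) := repd_mul 9 66 (2 ^ 44 - 1)

lemma hi1_eq : hi1 = pk 22 1024 (fun _ => 2 ^ 21) := repd_mul 10 22 (2 ^ 21)

attribute [local irreducible] hi3 tm pm hi1

lemma down_eq {v : ℕ → ℕ} (h : ∀ i, v i ≤ 2 ^ 15) :
    down (pk 22 1536 v) = pk 22 1024 (fun i => min (v (3 * i / 2)) (v (3 * i / 2 + 1))) := by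
  have e0 : pk 22 1536 v >>> 22 = pk 22 1536 (fun i => if i < 1535 then v (i + 1) else 0) :=
    pk_tail 1535 ((h 0).trans_lt (by norm_num))
  obtain ⟨m, hm⟩ : ∃ m : ℕ → ℕ, m = fun i => min (v i) (if i < 1535 then v (i + 1) else 0) :=
    ⟨_, rfl⟩
  have mb : ∀ i, m i ≤ 2 ^ 15 := fun i => by rw [hm]; exact (min_le_left _ _).trans (h i)
  have e1 : minv hi3 (pk 22 1536 v) (pk 22 1536 v >>> 22) = pk 22 1536 m := by
    rw [e0, hi3_eq, hm]
    refine minv_eq (fun i _ => (h i).trans_lt (by norm_num)) fun i _ => ?_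
    split_ifs
    · exact (h _).trans_lt (by norm_num)
    · norm_num
  have e3 : pk 22 1536 m = pk 66 (2 ^ 9) (fun r => pk 22 3 (fun s => m (3 * r + s))) :=
    pk_group 22 3 (2 ^ 9) m
  have e2 : pk 22 1536 m &&& pm = pk 66 (2 ^ 9) (fun r => m (3 * r) + 2 ^ 22 * m (3 * r + 1)) := by
    rw [pm_eq, e3, pk_land]
    · refine pk_congr fun r _ => ?_
      have := mb (3 * r)
      have := mb (3 * r + 1)
      rw [pk_three, Nat.and_two_pow_sub_one_eq_mod, add_zero]; omega
    · intro r _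
      have := mb (3 * r)
      have := mb (3 * r + 1)
      have := mb (3 * r + 2)
      rw [pk_three, add_zero]; omega
    · intro r _; norm_num
  have e4 : ∀ f, pk 22 1024 f = pk 44 (2 ^ 9) (fun r => pk 22 2 (fun s => f (2 * r + s))) :=
    pk_group 22 2 (2 ^ 9)
  change cmp (masks 9 66 44) (minv hi3 (pk 22 1536 v) (pk 22 1536 v >>> 22) &&& pm) = _
  rw [e1, e2, cmp_eq 9 66 44 _ (by norm_num) fun r _ => by
    have := mb (3 * r); have := mb (3 * r + 1); omega, e4]
  refine pk_congr fun r hr => ?_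
  rw [pk_two, show 3 * (2 * r + 0) / 2 = 3 * r by omega,
    show 3 * (2 * r + 1) / 2 = 3 * r + 1 by omega]
  simp only [hm]
  rw [if_pos (by omega), if_pos (by omega)]

lemma mix_eq {p : ℕ} {a b : ℕ → ℕ} (hp : p ≤ 64) (ha : ∀ i, a i ≤ 2 ^ 15) (hb : ∀ i, b i ≤ 2 ^ 15) :
    mix p (pk 22 1536 a) (pk 22 1536 b) =
      pk 22 1536 (fun i => ((64 - p) * a i + p * b i) / 64) := by
  change (((64 - p) * pk 22 1536 a + p * pk 22 1536 b) &&& tm) >>> 6 = _
  have bd : ∀ i, (64 - p) * a i + p * b i ≤ 64 * 2 ^ 15 := fun i => mix_le hp (ha i) (hb i)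
  refine Eq.trans ?_ (pk_shift 6)
  refine congrArg (fun x => x >>> 6) ?_
  rw [pk_mul, pk_mul, pk_add, tm_eq,
    pk_land (fun i _ => (bd i).trans_lt (by norm_num)) (fun _ _ => by norm_num)]
  refine pk_congr fun i _ => ?_
  have h1 := bd i
  generalize (64 - p) * a i + p * b i = x at h1
  have := land_split (w := 6) (x := x % 64) (y := 0) (x / 64) (2 ^ 16 - 1) (by omega) (by norm_num)
  rw [Nat.and_two_pow_sub_one_eq_mod, show x % 64 + 2 ^ 6 * (x / 64) = x by omega,
    Nat.and_zero] at this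
  rw [show 2 ^ 22 - 2 ^ 6 = 0 + 2 ^ 6 * (2 ^ 16 - 1) by norm_num, this]; omega

/-- the list `F 0, …, F (n-1)` -/
def L (n : ℕ) (F : ℕ → ℕ) : List ℕ := (List.range n).map F

lemma L_add (a b : ℕ) (F : ℕ → ℕ) : L (a + b) F = L a F ++ L b (fun c => F (a + c)) := by
  simp [L, List.range_add, Function.comp_def]

lemma L_succ (n : ℕ) (F : ℕ → ℕ) : L (n + 1) F = F 0 :: L n (fun c => F (c + 1)) := by
  simp [L, List.range_succ_eq_map, Function.comp_def]

lemma L_len (n : ℕ) (F : ℕ → ℕ) : (L n F).length = n := by simp [L]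

lemma L_zero (F : ℕ → ℕ) : L 0 F = [] := rfl

lemma L_rep (n : ℕ) : List.replicate n 0 = L n (fun _ => 0) := by simp [L]

lemma L_mem {n c : ℕ} (F : ℕ → ℕ) (h : c < n) : F c ∈ L n F :=
  List.mem_map.2 ⟨c, List.mem_range.2 h, rfl⟩

lemma L_congr {n : ℕ} {F G : ℕ → ℕ} (h : ∀ c < n, F c = G c) : L n F = L n G :=
  List.map_congr_left fun c hc => h c (List.mem_range.1 hc)

lemma L_map (f : ℕ → ℕ) (n : ℕ) (F : ℕ → ℕ) : (L n F).map f = L n (fun c => f (F c)) := by
  simp [L, Function.comp_def]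

lemma pol_eq : pol = L 96 (fun c => pol.getD c 0) := by decide

attribute [local irreducible] L

/-- chunk `c` of length `n` -/
def ch (n : ℕ) (g : ℕ → ℕ) (c : ℕ) : ℕ := pk 22 n (fun s => g (n * c + s))

lemma join {w : ℕ} (a : ℕ) {g : ℕ → ℕ} (hb : ∀ i, g i < 2 ^ w) :
    pk w (a + a) (fun s => g s) + (pk w (a + a) (fun s => g (a + a + s)) % 2 ^ (w * a)) <<<
      (w * (a + a)) = pk w (a + a + a) (fun s => g s) ∧
    pk w (a + a) (fun s => g (a + a + s)) >>> (w * a) +
      pk w (a + a) (fun s => g (a + a + (a + a) + s)) <<< (w * a) =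
      pk w (a + (a + a)) (fun s => g (a + a + a + s)) := by
  constructor
  · rw [Nat.shiftLeft_eq, mul_comm _ (2 ^ _), pk_append w (a + a) a, pk_mod a a fun i _ => hb _]
  · rw [Nat.shiftLeft_eq, mul_comm _ (2 ^ _), pk_append w a (a + a), pk_div a a fun i _ => hb _]
    congr 1
    · exact pk_congr fun i _ => by congr 1; omega
    · congr 1
      exact pk_congr fun i _ => by congr 1; omega

lemma trip_cons (a b c : ℕ) (l : List ℕ) : trip (a :: b :: c :: l) =
    (a + (b % 2 ^ (22 * 512)) <<< (22 * (512 + 512))) ::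
      (b >>> (22 * 512) + c <<< (22 * 512)) :: trip l := rfl

lemma trip_eq (q : ℕ) : ∀ g : ℕ → ℕ, (∀ i, g i ≤ 2 ^ 15) →
    trip (L (3 * q) (ch 1024 g)) = L (2 * q) (ch 1536 g) := by
  induction q with
  | zero => intro g _; rw [mul_zero, mul_zero, L_zero, L_zero]; rfl
  | succ q ih =>
    intro g h
    have hb : ∀ i, g i < 2 ^ 22 := fun i => (h i).trans_lt (by norm_num)
    have a1 : (fun c => ch 1024 g (c + 1 + 1 + 1)) = ch 1024 (fun i => g (3072 + i)) := by
      funext c; exact pk_congr fun s _ => by congr 1; omega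
    have a2 : (fun c => ch 1536 g (c + 1 + 1)) = ch 1536 (fun i => g (3072 + i)) := by
      funext c; exact pk_congr fun s _ => by congr 1; omega
    have c0 : ch 1024 g 0 = pk 22 (512 + 512) (fun s => g s) :=
      pk_congr fun s _ => by congr 1; omega
    have c1 : ch 1024 g (0 + 1) = pk 22 (512 + 512) (fun s => g (512 + 512 + s)) :=
      pk_congr fun s _ => by congr 1
    have c2 : ch 1024 g (0 + 1 + 1) =
        pk 22 (512 + 512) (fun s => g (512 + 512 + (512 + 512) + s)) :=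
      pk_congr fun s _ => by congr 1
    have d0 : ch 1536 g 0 = pk 22 (512 + 512 + 512) (fun s => g s) :=
      pk_congr fun s _ => by congr 1; omega
    have d1 : ch 1536 g (0 + 1) = pk 22 (512 + (512 + 512)) (fun s => g (512 + 512 + 512 + s)) :=
      pk_congr fun s _ => by congr 1
    rw [show 3 * (q + 1) = 3 * q + 1 + 1 + 1 by ring, show 2 * (q + 1) = 2 * q + 1 + 1 by ring,
      L_succ, L_succ, L_succ, L_succ, L_succ, trip_cons, a1, a2, ih _ fun i => h _,
      c0, c1, c2, d0, d1, (join 512 hb).1, (join 512 hb).2]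

lemma mixs_eq (n : ℕ) (r : List ℕ) : ∀ P A B : ℕ → ℕ,
    mixs (L n P) (L n A) (L n B ++ r) = L n (fun c => mix (P c) (A c) (B c)) := by
  induction n with
  | zero => intro P A B; simp only [L_zero]; rfl
  | succ n ih => intro P A B; simp only [L_succ, List.cons_append, mixs, ih]

lemma step_eq {g : ℕ → ℕ} (h : ∀ i, g i ≤ 2 ^ 15) :
    step (L 288 (ch 1024 g)) = L 288 (ch 1024 (stp g)) := by
  have e : trip (L 288 (ch 1024 g)) = L 96 (ch 1536 g) ++ L 96 (fun c => ch 1536 g (96 + c)) :=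
    (trip_eq 96 g h).trans (L_add 96 96 _)
  have e' : L 288 (ch 1024 (stp g)) = L 96 (ch 1024 (stp g)) ++
      (L 96 (fun c => ch 1024 (stp g) (96 + c)) ++
        L 96 (fun c => ch 1024 (stp g) (96 + (96 + c)))) := by
    rw [← L_add 96 96 (fun c => ch 1024 (stp g) (96 + c))]; exact L_add 96 192 _
  rw [step, e, e', List.take_left' (L_len _ _), List.drop_left' (L_len _ _)]
  rw [show mixs pol = mixs (L 96 (fun c => pol.getD c 0)) from congrArg mixs pol_eq, mixs_eq,
    List.map_append, List.map_append, L_map, L_map, L_map]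
  congr 1
  · refine L_congr fun c hc => ?_
    unfold ch
    rw [down_eq fun i => h _]
    refine pk_congr fun i hi => ?_
    rw [stp, show (1024 * c + i) / 1024 = c by omega, mv, mv, if_pos hc, if_pos hc]
    congr 2 <;> omega
  congr 1
  · refine L_congr fun c hc => ?_
    have hp := (pol_le c hc).1
    unfold ch
    rw [mix_eq hp (fun i => h _) (fun i => h _), down_eq fun i => by
      have := mix_le hp (h (1536 * (96 + c) + i)) (h (1536 * c + i)); omega]
    refine pk_congr fun i hi => ?_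
    have hP : PP (96 + c) = pol.getD c 0 := by
      rw [PP, if_neg (by omega), if_pos (by omega), Nat.add_sub_cancel_left]
    rw [stp, show (1024 * (96 + c) + i) / 1024 = 96 + c by omega, mv, mv, if_neg (by omega),
      if_pos (by omega), if_neg (by omega), if_pos (by omega), hP,
      show 3 * (1024 * (96 + c) + i) / 2 = 1536 * (96 + c) + 3 * i / 2 by omega,
      show 1536 * (96 + c) + 3 * i / 2 - 147456 = 1536 * c + 3 * i / 2 by omega,
      show 1536 * (96 + c) + 3 * i / 2 + 1 - 147456 = 1536 * c + (3 * i / 2 + 1) by omega,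
      add_assoc]
  · refine L_congr fun c hc => ?_
    unfold ch
    rw [down_eq fun i => h _]
    refine pk_congr fun i hi => ?_
    rw [stp, show (1024 * (96 + (96 + c)) + i) / 1024 = 96 + (96 + c) by omega, mv, mv,
      if_neg (by omega), if_neg (by omega), if_neg (by omega), if_neg (by omega),
      show 3 * (1024 * (96 + (96 + c)) + i) / 2 - 147456 = 1536 * (96 + c) + 3 * i / 2 by omega,
      show 3 * (1024 * (96 + (96 + c)) + i) / 2 + 1 - 147456 =
        1536 * (96 + c) + (3 * i / 2 + 1) by omega]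

lemma force_eq (l : List ℕ) : force l = true := by
  induction l with
  | nil => rfl
  | cons a l ih => simp [force, ih]

lemma run_eq (t : ℕ) : ∀ s, run t (L 288 (ch 1024 (gi s))) = L 288 (ch 1024 (gi (s + t))) := by
  induction t with
  | zero => intro s; rfl
  | succ t ih =>
    intro s
    rw [run, force_eq, cond_true, step_eq (gi_le s)]
    exact (ih (s + 1)).trans (by rw [add_assoc, add_comm 1])

lemma ch_zero (c : ℕ) : ch 1024 (gi 0) c = pk 22 1024 (fun _ => 32 * (PP c * (64 - PP c))) :=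
  pk_congr fun i hi => by simp only [gi]; rw [show (1024 * c + i) / 1024 = c by omega]

lemma g0_eq : g0 = L 288 (ch 1024 (gi 0)) := by
  have z : ∀ F : ℕ → ℕ, (∀ c < 96, F c = 0) → List.replicate 96 0 = L 96 F := fun F h => by
    rw [L_congr h, L_rep]
  have e' : L 288 (ch 1024 (gi 0)) = L 96 (ch 1024 (gi 0)) ++
      (L 96 (fun c => ch 1024 (gi 0) (96 + c)) ++
        L 96 (fun c => ch 1024 (gi 0) (96 + (96 + c)))) := by
    rw [← L_add 96 96 (fun c => ch 1024 (gi 0) (96 + c))]; exact L_add 96 192 _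
  rw [e', g0]
  congr 1
  · exact z _ fun c hc => by rw [ch_zero, PP, if_pos hc]; exact pk_zero _ _
  congr 1
  · refine (congrArg (List.map _) pol_eq).trans ((L_map _ _ _).trans (L_congr fun c hc => ?_))
    rw [ch_zero, PP, if_neg (by omega), if_pos (by omega), Nat.add_sub_cancel_left, repd_mul]
    rfl
  · exact z _ fun c hc => by
      rw [ch_zero, PP, if_neg (by omega), if_neg (by omega)]; exact pk_zero _ _

lemma chk_mem {b : ℕ} {l : List ℕ} (h : chk b l = true) :
    ∀ a ∈ l, minv hi1 a (Nat.mul (repd 10 22) b) = Nat.mul (repd 10 22) b := by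
  induction l with
  | nil => simp
  | cons x l ih =>
    rw [chk] at h
    cases hb : Nat.beq (minv hi1 x (Nat.mul (repd 10 22) b)) (Nat.mul (repd 10 22) b) with
    | false => rw [hb] at h; simp at h
    | true =>
      rw [hb, cond_true] at h
      intro a ha
      rcases List.mem_cons.1 ha with rfl | ha
      · exact Nat.eq_of_beq_eq_true hb
      · exact ih h a ha

theorem gi_low (i : ℕ) (h1 : 2048 ≤ i) (h2 : i < 286 * 1024) : 12125 ≤ gi 46 i := by
  have h := run_ok
  have e : L 288 (ch 1024 (gi (0 + 46))) = L 2 (ch 1024 (gi 46)) ++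
      (L 284 (fun c => ch 1024 (gi 46) (2 + c)) ++
        L 2 (fun c => ch 1024 (gi 46) (2 + (284 + c)))) := by
    rw [← L_add 284 2 (fun c => ch 1024 (gi 46) (2 + c))]; exact L_add 2 286 _
  rw [g0_eq, run_eq, e, List.drop_left' (L_len _ _), List.take_left' (L_len _ _)] at h
  have h3 := chk_mem h (ch 1024 (gi 46) (2 + (i / 1024 - 2)))
    (L_mem (fun c => ch 1024 (gi 46) (2 + c)) (by omega))
  rw [hi1_eq, show Nat.mul (repd 10 22) 12125 = pk 22 1024 (fun _ => 12125) from
    repd_mul 10 22 12125, ch, minv_eq (fun j _ => (gi_le _ _).trans_lt (by norm_num)) (fun _ _ => by norm_num)] at h3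
  have h4 := pk_inj (fun j _ => (min_le_right _ _).trans_lt (by norm_num))
    (fun _ _ => by norm_num) h3 (i % 1024) (by omega)
  rw [show 1024 * (2 + (i / 1024 - 2)) + i % 1024 = i by omega] at h4
  omega

end Pool.Agent.P.MP_0ff3a5_nt.TH.Pk
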