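import Pool.Agent.P.MP_0ff3a5_nt.TH.Spec
import Pool.Agent.P.MP_0ff3a5_nt.TH.Sem

/-! The steering rule and its certificate. -/

namespace Pool.Agent.P.MP_0ff3a5_nt.TH
open Pk

namespace PolF

/-- the steering rule -/
noncomputable def pp (y : ℝ) : ℝ := (PP ⌊96 * y⌋₊ : ℝ) / 64

lemma pp_nn (y : ℝ) : 0 ≤ pp y := by unfold pp; positivity

lemma pp_le (y : ℝ) : pp y ≤ 1 := by
  have : (PP ⌊96 * y⌋₊ : ℝ) ≤ 64 := by exact_mod_cast (PP_le _).1
  unfold pp; linarith

lemma pp_pos (y : ℝ) (h : 0 < pp y) : 1 + 1 / 48 ≤ y := by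
  have h1 : 0 < PP ⌊96 * y⌋₊ := by
    by_contra h2
    rw [pp, Nat.eq_zero_of_not_pos h2] at h; simp at h
  have h2 := (Nat.le_floor_iff' (by norm_num)).1 ((PP_le _).2.1 h1)
  push_cast at h2; linarith

lemma pp_lt (y : ℝ) (h : pp y < 1) : y < 2 - 1 / 48 := by
  have h1 : PP ⌊96 * y⌋₊ < 64 := by
    have : (PP ⌊96 * y⌋₊ : ℝ) < 64 := by unfold pp at h; linarith
    exact_mod_cast this
  have h2 := (Nat.floor_lt' (by norm_num)).1 ((PP_le _).2.2 h1)
  push_cast at h2; linarith

/-- expected gain after `t` steps -/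
noncomputable def F (t : ℕ) : ℝ → ℝ := (U pp)^[t] (fun y => 4 * pp y * (1 - pp y))

lemma F_succ (t : ℕ) (y : ℝ) :
    F (t + 1) y = (1 - pp y) * F t (3 / 2 * y) + pp y * F t (3 / 2 * y - 3 / 2) := by
  rw [F, Function.iterate_succ_apply']; rfl

lemma piece (y : ℝ) : ⌊98304 * y⌋₊ / 1024 = ⌊96 * y⌋₊ := by
  rw [← Nat.floor_div_natCast]; congr 1; push_cast; ring

lemma low (t : ℕ) : ∀ y : ℝ, 0 ≤ y → y < 3 → (gi t ⌊98304 * y⌋₊ : ℝ) ≤ 32768 * F t y := by
  induction t with
  | zero =>
    intro y _ _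
    simp only [gi, F, Function.iterate_zero, id, piece, pp]
    rw [Nat.cast_mul, Nat.cast_mul, Nat.cast_sub (PP_le _).1]
    push_cast
    apply le_of_eq; ring
  | succ t ih =>
    intro y h0 h3
    set i := ⌊98304 * y⌋₊ with hi
    set j := ⌊98304 * (3 / 2 * y)⌋₊ with hj
    have i1 : (i : ℝ) ≤ 98304 * y := Nat.floor_le (by positivity)
    have i2 : 98304 * y < i + 1 := Nat.lt_floor_add_one _
    have j1 : (j : ℝ) ≤ 98304 * (3 / 2 * y) := Nat.floor_le (by positivity)
    have j2 : 98304 * (3 / 2 * y) < j + 1 := Nat.lt_floor_add_one _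
    have a1 : 2 * j < 3 * i + 3 := by
      have : (2 * j : ℝ) < 3 * i + 3 := by linarith
      exact_mod_cast this
    have a2 : 3 * i < 2 * j + 2 := by
      have : (3 * i : ℝ) < 2 * j + 2 := by linarith
      exact_mod_cast this
    have key : gi (t + 1) i ≤ mv (gi t) (i / 1024) j := by
      rcases (by omega : j = 3 * i / 2 ∨ j = 3 * i / 2 + 1) with h | h
      · rw [h]; exact min_le_left _ _
      · rw [h]; exact min_le_right _ _
    have hs : ⌊98304 * (3 / 2 * y - 3 / 2)⌋₊ = j - 147456 := by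
      rw [hj, ← Nat.floor_sub_natCast]; congr 1; push_cast; ring
    have hc : i / 1024 = ⌊96 * y⌋₊ := piece y
    refine le_trans (Nat.cast_le.2 key) ?_
    rw [F_succ, pp, ← hc, mv]
    split_ifs with c1 c2
    · have y1 : y < 1 := by
        have := (Nat.floor_lt' (by norm_num)).1 (hc ▸ c1); push_cast at this; linarith
      have := ih (3 / 2 * y) (by linarith) (by linarith)
      rw [PP, if_pos c1]; simpa using this
    · have y1 : 1 ≤ y := by
        have := (Nat.le_floor_iff' (by norm_num)).1 (hc ▸ not_lt.1 c1); push_cast at this; linarith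
      have y2 : y < 2 := by
        have := (Nat.floor_lt' (by norm_num)).1 (hc ▸ c2); push_cast at this; linarith
      have b1 := ih (3 / 2 * y) (by linarith) (by linarith)
      have b2 := ih (3 / 2 * y - 3 / 2) (by linarith) (by linarith)
      rw [hs] at b2
      have p1 := (PP_le (i / 1024)).1
      have p2 : (PP (i / 1024) : ℝ) ≤ 64 := by exact_mod_cast p1
      have p3 : (0 : ℝ) ≤ PP (i / 1024) := Nat.cast_nonneg _
      refine le_trans Nat.cast_div_le ?_
      rw [Nat.cast_add, Nat.cast_mul, Nat.cast_mul, Nat.cast_sub p1]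
      push_cast
      have := mul_le_mul_of_nonneg_left b1 (sub_nonneg.2 p2)
      have := mul_le_mul_of_nonneg_left b2 p3
      linarith
    · have y1 : 2 ≤ y := by
        have := (Nat.le_floor_iff' (by norm_num)).1 (hc ▸ not_lt.1 c2); push_cast at this; linarith
      have b2 := ih (3 / 2 * y - 3 / 2) (by linarith) (by linarith)
      rw [hs] at b2
      rw [PP, if_neg c1, if_neg c2]; simpa using b2

lemma good (n : ℕ) (hn : 46 ≤ n) : ∀ y : ℝ, 1 / 48 ≤ y → y < 3 - 1 / 48 → 37 / 100 ≤ F n y := by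
  induction n, hn using Nat.le_induction with
  | base =>
    intro y h1 h2
    have a := low 46 y (by linarith) (by linarith)
    have b := gi_low ⌊98304 * y⌋₊ (Nat.le_floor (by push_cast; linarith))
      ((Nat.floor_lt' (by norm_num)).2 (by push_cast; linarith))
    have : (12125 : ℝ) ≤ gi 46 ⌊98304 * y⌋₊ := by exact_mod_cast b
    linarith
  | succ n _ ih =>
    intro y h1 h2
    have a : (1 - pp y) * (37 / 100) ≤ (1 - pp y) * F n (3 / 2 * y) := by
      rcases (pp_le y).eq_or_lt with h | h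
      · simp [h]
      · have := pp_lt y h
        exact mul_le_mul_of_nonneg_left (ih _ (by linarith) (by linarith)) (by linarith)
    have b : pp y * (37 / 100) ≤ pp y * F n (3 / 2 * y - 3 / 2) := by
      rcases (pp_nn y).eq_or_lt with h | h
      · simp [← h]
      · have := pp_pos y h
        exact mul_le_mul_of_nonneg_left (ih _ (by linarith) (by linarith)) h.le
    rw [F_succ]; linarith

lemma compl (n : ℕ) : ∀ y, (U pp)^[n] (fun y => (1 - 2 * pp y) ^ 2) y = 1 - F n y := by
  induction n with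
  | zero => intro y; simp only [F, Function.iterate_zero, id]; ring
  | succ n ih => intro y; rw [Function.iterate_succ_apply', U, ih, ih, F_succ]; ring

end PolF

theorem p_Pol : S_Pol :=
  ⟨PolF.pp, PolF.pp_nn, PolF.pp_le, PolF.pp_pos, PolF.pp_lt, fun n hn y h1 h2 => by
    rw [PolF.compl]; linarith [PolF.good n hn y h1 h2]⟩

end Pool.Agent.P.MP_0ff3a5_nt.TH
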