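import Pool.Agent.P.MP_0ff3a5_nt.TH.Spec

/-! Bounds and convexity of `psi`. -/

namespace Pool.Agent.P.MP_0ff3a5_nt.TH

open Real

namespace PsiA

variable {a b r s w x y : ℝ}

/-- The tangent line of `x log x`. -/
theorem tang (hx : 0 ≤ x) (hy : 0 ≤ y) (h : y = 0 → x = 0) : x * log y + x - y ≤ x * log x := by
  rcases hx.eq_or_lt with rfl | hx
  · simpa using hy
  have h1 : 0 < y := hy.lt_of_ne fun e => hx.ne' (h e.symm)
  have h2 := mul_le_mul_of_nonneg_left (log_le_sub_one_of_pos (div_pos h1 hx)) hx.le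
  rw [log_div h1.ne' hx.ne', mul_sub, mul_sub, mul_div_cancel₀ _ hx.ne'] at h2
  linarith

theorem split (hy : y ≠ 0) (h : r = 0 → x = 0) : x * log (r * y) = x * log r + x * log y := by
  by_cases hr : r = 0
  · simp [h hr]
  · rw [log_mul hr hy, mul_add]

theorem gibbs (ha : 0 ≤ a) (hb : 0 ≤ b) (hr : 0 ≤ r) (hs : 0 ≤ s) (h : r + s = 2)
    (h1 : r = 0 → a = 0) (h2 : s = 0 → b = 0) : a * log r + b * log s ≤ psi a b := by
  unfold psi
  by_cases h0 : a + b = 0
  · rw [show a = 0 by linarith, show b = 0 by linarith]; simp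
  have hm : (a + b) / 2 ≠ 0 := div_ne_zero h0 two_ne_zero
  have t1 := tang ha (y := r * ((a + b) / 2)) (by positivity)
    fun e => h1 ((mul_eq_zero.1 e).resolve_right hm)
  have t2 := tang hb (y := s * ((a + b) / 2)) (by positivity)
    fun e => h2 ((mul_eq_zero.1 e).resolve_right hm)
  rw [split hm h1] at t1
  rw [split hm h2] at t2
  have t3 : r * ((a + b) / 2) + s * ((a + b) / 2) = a + b := by rw [← add_mul, h]; ring
  linarith

theorem gibbs_w (ha : 0 ≤ a) (hb : 0 ≤ b) (hr : 0 ≤ r) (hs : 0 ≤ s) (hw : 0 ≤ w) (h : r + s = 2)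
    (h1 : r = 0 → w * a = 0) (h2 : s = 0 → w * b = 0) :
    w * (a * log r + b * log s) ≤ w * psi a b := by
  rcases hw.eq_or_lt with rfl | h0
  · simp
  exact mul_le_mul_of_nonneg_left (gibbs ha hb hr hs h
    (fun e => (mul_eq_zero.1 (h1 e)).resolve_left h0.ne')
    fun e => (mul_eq_zero.1 (h2 e)).resolve_left h0.ne') hw

theorem nonneg (ha : 0 ≤ a) (hb : 0 ≤ b) : 0 ≤ psi a b := by
  simpa using gibbs ha hb zero_le_one zero_le_one one_add_one_eq_two (by simp) (by simp)

theorem mono (hx : 0 ≤ x) (hy : x ≤ y) : x * log x ≤ x * log y := by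
  rcases hx.eq_or_lt with rfl | h
  · simp
  exact mul_le_mul_of_nonneg_left (log_le_log h hy) hx

theorem upper (ha : 0 ≤ a) (hb : 0 ≤ b) : psi a b ≤ (a + b) * log 2 := by
  unfold psi
  by_cases h0 : a + b = 0
  · rw [show a = 0 by linarith, show b = 0 by linarith]; simp
  have h1 := mono ha (le_add_of_nonneg_right hb)
  have h2 := mono hb (le_add_of_nonneg_left ha)
  rw [log_div h0 two_ne_zero]
  linarith

theorem psi_eq (h : a + b ≠ 0) :
    psi a b = a * log (a / ((a + b) / 2)) + b * log (b / ((a + b) / 2)) := by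
  have hm : ((a + b) / 2)⁻¹ ≠ 0 := inv_ne_zero (div_ne_zero h two_ne_zero)
  rw [div_eq_mul_inv a, div_eq_mul_inv b, split hm id, split hm id, log_inv, psi]
  ring

end PsiA

open PsiA in
theorem p_PsiA : S_PsiA := by
  refine ⟨fun a b ha hb => ⟨nonneg ha hb, upper ha hb⟩, fun a b a' b' p ha hb ha' hb' hp h1 => ?_⟩
  have hq : 0 ≤ 1 - p := sub_nonneg.2 h1
  have a1 := mul_nonneg hq ha
  have a2 := mul_nonneg hp ha'
  have b1 := mul_nonneg hq hb
  have b2 := mul_nonneg hp hb'
  obtain ⟨A, hA⟩ : ∃ A, A = (1 - p) * a + p * a' := ⟨_, rfl⟩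
  obtain ⟨B, hB⟩ : ∃ B, B = (1 - p) * b + p * b' := ⟨_, rfl⟩
  have A0 : 0 ≤ A := by linarith
  have B0 : 0 ≤ B := by linarith
  rw [← hA, ← hB]
  by_cases h0 : A + B = 0
  · rw [show A = 0 by linarith, show B = 0 by linarith, show psi 0 0 = 0 by simp [psi]]
    exact add_nonneg (mul_nonneg hq (nonneg ha hb)) (mul_nonneg hp (nonneg ha' hb'))
  have hm : (A + B) / 2 ≠ 0 := div_ne_zero h0 two_ne_zero
  have hs : A / ((A + B) / 2) + B / ((A + B) / 2) = 2 := by field_simp
  have z1 : A / ((A + B) / 2) = 0 → A = 0 := fun e => (div_eq_zero_iff.1 e).resolve_right hm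
  have z2 : B / ((A + B) / 2) = 0 → B = 0 := fun e => (div_eq_zero_iff.1 e).resolve_right hm
  have g1 := gibbs_w ha hb (by positivity) (by positivity) hq hs
    (fun e => by linarith [z1 e]) fun e => by linarith [z2 e]
  have g2 := gibbs_w ha' hb' (by positivity) (by positivity) hp hs
    (fun e => by linarith [z1 e]) fun e => by linarith [z2 e]
  rw [psi_eq h0]
  generalize log (A / ((A + B) / 2)) = u at *
  generalize log (B / ((A + B) / 2)) = v at *
  rw [hA, hB]
  linarith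

end Pool.Agent.P.MP_0ff3a5_nt.TH
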