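import Pool.Agent.P.MP_0ff3a5_nt.TH.Spec

/-! Contraction of the missing entropy of one digit. -/

namespace Pool.Agent.P.MP_0ff3a5_nt.TH
open Real

namespace PsiC

noncomputable def phi (t : ℝ) : ℝ := (1 + t) * log (1 + t) + (1 - t) * log (1 - t)

lemma phi_cont : Continuous phi :=
  (continuous_mul_log.comp (continuous_const.add continuous_id)).add
    (continuous_mul_log.comp (continuous_const.sub continuous_id))

lemma phi_sum {x : ℝ} (h : |x| < 1) :
    HasSum (fun n : ℕ => (2 / (2 * n + 1) - 1 / (n + 1)) * (x ^ 2) ^ (n + 1)) (phi x) := by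
  have h2 : |x ^ 2| < 1 := by rw [abs_pow]; exact pow_lt_one₀ (abs_nonneg _) h two_ne_zero
  have a := (hasSum_log_sub_log_of_abs_lt_one h).mul_left x
  have b := hasSum_pow_div_log_of_abs_lt_one h2
  obtain ⟨h3, h4⟩ := abs_lt.1 h
  have e : log (1 - x ^ 2) = log (1 + x) + log (1 - x) := by
    rw [← log_mul (by linarith) (by linarith)]; congr 1; ring
  have c := a.sub b
  rw [show x * (log (1 + x) - log (1 - x)) - -log (1 - x ^ 2) = phi x by rw [e, phi]; ring] at c
  rwa [show (fun n : ℕ => (2 / (2 * n + 1) - 1 / (n + 1)) * (x ^ 2) ^ (n + 1)) = fun n : ℕ =>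
    x * (2 * (1 / (2 * n + 1)) * x ^ (2 * n + 1)) - (x ^ 2) ^ (n + 1) / (n + 1) from
    funext fun n => by ring]

lemma phi_le {r t : ℝ} (hr : |r| ≤ 1) (ht : |t| ≤ 1) : phi (r * t) ≤ r ^ 2 * phi t := by
  have c : IsClosed {t | phi (r * t) ≤ r ^ 2 * phi t} :=
    isClosed_le (phi_cont.comp (continuous_const.mul continuous_id)) (continuous_const.mul phi_cont)
  have s : Set.Ioo (-1 : ℝ) 1 ⊆ {t | phi (r * t) ≤ r ^ 2 * phi t} := by
    intro t ht
    have h1 : |t| < 1 := abs_lt.2 ht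
    have h2 : |r * t| < 1 := by
      rw [abs_mul]; nlinarith [abs_nonneg r, abs_nonneg t]
    refine hasSum_le (fun n => ?_) (phi_sum h2) ((phi_sum h1).mul_left _)
    have c0 : (0 : ℝ) ≤ 2 / (2 * n + 1) - 1 / (n + 1) := by
      rw [sub_nonneg, div_le_div_iff₀ (by positivity) (by positivity)]; linarith
    have r2 : r ^ 2 ≤ 1 := by rw [← sq_abs]; exact pow_le_one₀ (abs_nonneg _) hr
    have r3 : (r ^ 2) ^ n ≤ 1 := pow_le_one₀ (sq_nonneg _) r2
    have : ((r * t) ^ 2) ^ (n + 1) ≤ r ^ 2 * (t ^ 2) ^ (n + 1) := by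
      rw [mul_pow, mul_pow, pow_succ (r ^ 2)]
      have : 0 ≤ r ^ 2 * (t ^ 2) ^ (n + 1) := by positivity
      nlinarith
    nlinarith [mul_le_mul_of_nonneg_left this c0]
  have := c.closure_subset_iff.2 s
  rw [closure_Ioo (by norm_num)] at this
  exact this (abs_le.1 ht)

lemma psi_eq {s : ℝ} (hs : 0 < s) {t : ℝ} (ht : |t| ≤ 1) :
    psi (s * (1 + t)) (s * (1 - t)) = s * phi t := by
  obtain ⟨h1, h2⟩ := abs_le.1 ht
  have e : ∀ x : ℝ, 0 ≤ x → s * x * log (s * x) = s * x * log s + s * (x * log x) := by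
    intro x hx
    rcases hx.eq_or_lt with rfl | hx
    · simp
    · rw [log_mul hs.ne' hx.ne']; ring
  rw [psi, e _ (by linarith), e _ (by linarith),
    show (s * (1 + t) + s * (1 - t)) / 2 = s by ring, phi]
  ring

end PsiC

theorem p_PsiC : S_PsiB := by
  intro a b p ha hb h0 h1
  rcases (add_nonneg ha hb).eq_or_lt with h | h
  · have : a = 0 := by linarith
    have : b = 0 := by linarith
    subst_vars; simp [psi]
  have ht : |(a - b) / (a + b)| ≤ 1 := by
    rw [abs_div, abs_of_pos h, div_le_one h, abs_le]; constructor <;> linarith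
  have hr : |1 - 2 * p| ≤ 1 := abs_le.2 ⟨by linarith, by linarith⟩
  have hrt : |(1 - 2 * p) * ((a - b) / (a + b))| ≤ 1 := by
    rw [abs_mul]; exact mul_le_one₀ hr (abs_nonneg _) ht
  have e1 := PsiC.psi_eq (half_pos h) ht
  have e2 := PsiC.psi_eq (half_pos h) hrt
  rw [show (a + b) / 2 * (1 + (a - b) / (a + b)) = a by field_simp; ring,
    show (a + b) / 2 * (1 - (a - b) / (a + b)) = b by field_simp; ring] at e1
  rw [show (a + b) / 2 * (1 + (1 - 2 * p) * ((a - b) / (a + b))) = (1 - p) * a + p * b by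
      field_simp; ring,
    show (a + b) / 2 * (1 - (1 - 2 * p) * ((a - b) / (a + b))) = (1 - p) * b + p * a by
      field_simp; ring] at e2
  rw [e1, e2]
  nlinarith [mul_le_mul_of_nonneg_left (PsiC.phi_le hr ht) (half_pos h).le]

end Pool.Agent.P.MP_0ff3a5_nt.TH
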