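import Pool.Agent.P.MP_0ff3a5_nt.TH.Pk

/-! The packed iteration and its evaluation. -/

namespace Pool.Agent.P.MP_0ff3a5_nt.TH.Pk

def hi3 : ℕ := Nat.mul (repd 9 66) (2 ^ 21 + 2 ^ 43 + 2 ^ 65)
def pm : ℕ := Nat.mul (repd 9 66) (2 ^ 44 - 1)
def tm : ℕ := Nat.mul (repd 9 66) ((2 ^ 22 - 2 ^ 6) * (1 + 2 ^ 22 + 2 ^ 44))
def ms : List (ℕ × ℕ) := masks 9 66 44
def hi1 : ℕ := Nat.mul (repd 10 22) (2 ^ 21)

def down (V : ℕ) : ℕ := cmp ms (Nat.land (minv hi3 V (Nat.shiftRight V 22)) pm)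

def mix (p A B : ℕ) : ℕ :=
  Nat.shiftRight (Nat.land (Nat.add (Nat.mul (Nat.sub 64 p) A) (Nat.mul p B)) tm) 6

def trip : List ℕ → List ℕ
  | a :: b :: c :: l => Nat.add a (Nat.shiftLeft (Nat.mod b (Nat.pow 2 11264)) 22528) ::
      Nat.add (Nat.shiftRight b 11264) (Nat.shiftLeft c 11264) :: trip l
  | _ => []

def mixs : List ℕ → List ℕ → List ℕ → List ℕ
  | p :: ps, a :: as, b :: bs => mix p a b :: mixs ps as bs
  | _, _, _ => []

/-- the steering odds, in units of `1/64`, on the 96 pieces of `[1,2)` -/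
def pol : List ℕ := [0, 0, 2, 4, 6, 7, 9, 10, 11, 12, 13, 14, 15, 15, 16, 17, 18, 18, 19, 19, 19,
  21, 21, 21, 22, 22, 23, 23, 24, 25, 26, 27, 27, 27, 28, 28, 28, 28, 28, 30, 29, 29, 28, 28, 29,
  30, 32, 32, 32, 32, 34, 35, 36, 36, 35, 35, 34, 36, 36, 36, 36, 36, 37, 37, 37, 38, 39, 40, 41,
  41, 42, 42, 43, 43, 43, 45, 45, 45, 46, 46, 47, 48, 49, 49, 50, 51, 52, 53, 54, 55, 57, 58, 60,
  62, 64, 64]

def step (G : List ℕ) : List ℕ :=
  List.map down (List.take 96 (trip G) ++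
    (mixs pol (List.drop 96 (trip G)) (trip G) ++ List.drop 96 (trip G)))

def g0 : List ℕ := List.replicate 96 0 ++
  (List.map (fun p => Nat.mul (repd 10 22) (Nat.mul 32 (Nat.mul p (Nat.sub 64 p)))) pol ++
    List.replicate 96 0)

def force : List ℕ → Bool
  | [] => true
  | a :: l => cond (Nat.ble 0 a) (force l) false

def run : ℕ → List ℕ → List ℕ
  | 0, G => G
  | t + 1, G => cond (force G) (run t (step G)) []

def chk (b : ℕ) : List ℕ → Bool
  | [] => true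
  | a :: l => cond (Nat.beq (minv hi1 a (Nat.mul (repd 10 22) b)) (Nat.mul (repd 10 22) b))
      (chk b l) false

set_option maxRecDepth 100000 in
theorem run_ok : chk 12125 (List.take 284 (List.drop 2 (run 46 g0))) = true := by decide +kernel

end Pool.Agent.P.MP_0ff3a5_nt.TH.Pk
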