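import Pool.Agent.P.MP_0ff3a5_nt.TH.Defs

/-! Ratio three halves: the statements of the parts. -/

namespace Pool.Agent.P.MP_0ff3a5_nt.TH
open Finset

/-- every large integer is a sum of terms with distinct indices -/
def Cpl (u : ℕ → ℤ) : Prop := ∃ N : ℤ, ∀ m ≥ N, ∃ F : Finset ℕ, ∑ k ∈ F, u k = m

def S_Pattern : Prop := ∀ u : ℕ → ℤ, Sq u → (∃ r, Odd (u r)) → ¬ Cpl u →
  ∃ (π : Finset ℤ) (Y : ℤ), Apart u π Y ∧ ∀ n, (As u π n).Nonempty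

def S_Gain : Prop := ∀ (u : ℕ → ℤ) (π : Finset ℤ) (Y : ℤ), Sq u → Apart u π Y →
  (∀ n, 2 * (Vs u π (n + 1)).card ≤ 3 * (Vs u π n).card + 4) ∧
  ∃ C n0 : ℕ, ∀ n ≥ n0, 2 * u (n + 1) ≠ 3 * u n →
    38 * (Vs u π (n + 2)).card ≤ 81 * (Vs u π n).card + C

def S_PsiA : Prop :=
  (∀ a b : ℝ, 0 ≤ a → 0 ≤ b → 0 ≤ psi a b ∧ psi a b ≤ (a + b) * Real.log 2) ∧
  ∀ a b a' b' p : ℝ, 0 ≤ a → 0 ≤ b → 0 ≤ a' → 0 ≤ b' → 0 ≤ p → p ≤ 1 →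
    psi ((1 - p) * a + p * a') ((1 - p) * b + p * b') ≤ (1 - p) * psi a b + p * psi a' b'

def S_PsiB : Prop := ∀ a b p : ℝ, 0 ≤ a → 0 ≤ b → 0 ≤ p → p ≤ 1 →
  psi ((1 - p) * a + p * b) ((1 - p) * b + p * a) ≤ (1 - 2 * p) ^ 2 * psi a b

def S_Sumset : Prop := ∀ (p : ℝ → ℝ) (c : ℕ → ℤ) (y0 : ℝ) (R : ℕ → ℤ → ℝ → Prop) (k T : ℕ) (b : ℝ)
    (A B : Finset ℤ), (∀ y, 0 ≤ p y) → (∀ y, p y ≤ 1) → (∀ n, Odd (c n)) → R 0 0 y0 →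
  (∀ n X y, R n X y → p y < 1 → R (n + 1) X (3 / 2 * y)) →
  (∀ n X y, R n X y → 0 < p y → R (n + 1) (X + c n * 2 ^ n) (3 / 2 * y - 3 / 2)) →
  0 ≤ b → (∀ n, T ≤ n → n < k → (U p)^[n] (fun y => (1 - 2 * p y) ^ 2) y0 ≤ b) →
  A.Nonempty → (∀ q ∈ A, ∀ q' ∈ A, q ≡ q' [ZMOD 2 ^ k] → q = q') →
  (∀ q ∈ A, ∀ X y, R k X y → ∃ z ∈ B, z ≡ q - X [ZMOD 2 ^ k]) →
  k * Real.log 2 - Real.log B.card ≤ T * Real.log 2 + b * (k * Real.log 2 - Real.log A.card)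

def S_Ideal : Prop := ∀ u : ℕ → ℤ, Sq u →
  (∀ i m, i ≤ m → |(u i : ℝ) - (2 / 3) ^ (m - i) * u m| ≤ 2) ∧
  (∀ j m, ∑ i ∈ Ico j m, |(u i : ℝ) - (2 / 3) ^ (m - i) * u m| ≤ 2 * nz u j m) ∧
  ∀ j, 21 ≤ kk u j ∧ 2 ^ (kk u j - 1) ≤ u j ∧ u j < 2 ^ kk u j ∧
    1000 * (2 * (kk u j : ℤ) + 4) ≤ u j ∧ 1 ≤ nz u j (j + kk u j) ∧
    (3 : ℝ) ^ kk u j ≤ 4 * u (j + kk u j) ∧ 2 * (u (j + kk u j) : ℝ) ≤ 3 * 3 ^ kk u j ∧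
    Real.log (u (j + kk u j)) ≤ 1585 / 1000 * Real.log (u j) + 2

def S_Stage : Prop := ∀ (u : ℕ → ℤ) (π : Finset ℤ) (p : ℝ → ℝ) (j : ℕ), Sq u → Pol p →
  (As u π (j + kk u j)).Nonempty →
  Real.log (u j) - Real.log (As u π j).card ≤
    63 / 100 * (Real.log (u (j + kk u j)) - Real.log (As u π (j + kk u j)).card) +
      Real.log (nz u j (j + kk u j) + 1) + 64 * Real.log 2

def S_Pol : Prop := ∃ p, Pol p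

def S_Core : Prop := ∀ u : ℕ → ℤ, Sq u → (∃ r, Odd (u r)) → Cpl u

def S_Final : Prop := ∀ (α : ℝ) (r : ℕ), 0 < α → α ^ r = 3 / 2 → ∀ t : ℝ, 0 < t →
  ((∃ N : ℤ, ∀ m ≥ N, ∃ F : Finset ℤ, (∀ x ∈ F, ∃ n : ℕ, x = ⌊t * α ^ n⌋) ∧ ∑ x ∈ F, x = m) ↔
    ∃ n : ℕ, Odd ⌊t * α ^ n⌋)

end Pool.Agent.P.MP_0ff3a5_nt.TH
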