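import Pool.Agent.P.MP_0ff3a5_nt.TH.Spec

/-! Ratio three halves: one stage. -/

namespace Pool.Agent.P.MP_0ff3a5_nt.TH
open Finset

namespace Stage

lemma pow_bd {k : ℕ} (hk : 21 ≤ k) : (720 : ℝ) + 2 ^ k ≤ 3 ^ k := by
  induction k, hk using Nat.le_induction with
  | base => norm_num
  | succ n hn ih =>
    have : (0 : ℝ) < 2 ^ n := by positivity
    rw [pow_succ, pow_succ]; linarith

/-- a popular cell -/
lemma cell (S : Finset ℤ) (hS : S.Nonempty) (q : ℤ → ℤ) (L M : ℤ) (hL : 0 < L) (hLM : L ≤ M)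
    (hq : ∀ y ∈ S, 0 ≤ q y ∧ q y ≤ M) :
    ∃ w : ℤ, (S.filter (fun y => q y / L = w)).Nonempty ∧
      (S.card : ℤ) * L ≤ 2 * M * (S.filter (fun y => q y / L = w)).card := by
  classical
  obtain ⟨w, hw, hmax⟩ := exists_max_image (S.image (fun y => q y / L))
    (fun w => (S.filter (fun y => q y / L = w)).card) (hS.image _)
  refine ⟨w, ?_, ?_⟩
  · obtain ⟨y, hy, e⟩ := mem_image.1 hw
    exact ⟨y, mem_filter.2 ⟨hy, e⟩⟩
  · have h1 := card_le_mul_card_image (f := fun y => q y / L) S _ hmax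
    have h2 : S.image (fun y => q y / L) ⊆ Icc 0 (M / L) := by
      intro a ha
      obtain ⟨y, hy, rfl⟩ := mem_image.1 ha
      exact mem_Icc.2 ⟨Int.ediv_nonneg (hq y hy).1 hL.le, Int.ediv_le_ediv hL (hq y hy).2⟩
    have h3 := card_le_card h2
    have h0 : 0 ≤ M / L := Int.ediv_nonneg (by omega) hL.le
    have h4 : ((S.image (fun y => q y / L)).card : ℤ) ≤ M / L + 1 := by
      have : ((Icc 0 (M / L)).card : ℤ) = M / L + 1 := by
        rw [Int.card_Icc_of_le _ _ (by omega)]; ring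
      rw [← this]; exact_mod_cast h3
    have h5 : M / L * L ≤ M := Int.ediv_mul_le M hL.ne'
    have h6 : (S.card : ℤ) ≤ ((S.filter (fun y => q y / L = w)).card : ℤ) *
        ((S.image (fun y => q y / L)).card : ℤ) := by exact_mod_cast h1
    have h7 : (0 : ℤ) ≤ (S.filter (fun y => q y / L = w)).card := Nat.cast_nonneg _
    have h8 : ((S.image (fun y => q y / L)).card : ℤ) * L ≤ 2 * M := by nlinarith
    nlinarith

/-- fibres of the rescaling -/
lemma fibre (S : Finset ℤ) {th : ℝ} (h0 : 0 < th) (h3 : th ≤ 3) :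
    S.card ≤ 4 * (S.image (fun y : ℤ => ⌊(y : ℝ) / th⌋)).card := by
  classical
  refine card_le_mul_card_image S 4 fun a _ => ?_
  have : S.filter (fun y : ℤ => ⌊(y : ℝ) / th⌋ = a) ⊆ Ico ⌈a * th⌉ (⌈a * th⌉ + 4) := by
    intro y hy
    have e := (mem_filter.1 hy).2
    obtain ⟨h1, h2⟩ := Int.floor_eq_iff.1 e
    rw [le_div_iff₀ h0] at h1
    rw [div_lt_iff₀ h0] at h2
    refine mem_Ico.2 ⟨Int.ceil_le.2 h1, ?_⟩
    have h4 := Int.le_ceil (a * th)
    have : (y : ℝ) < ((⌈a * th⌉ + 4 : ℤ) : ℝ) := by push_cast; nlinarith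
    exact_mod_cast this
  simpa using card_le_card this

/-- the invariant of the chain -/
def R (um th W : ℝ) (k m : ℕ) (n : ℕ) (X : ℤ) (x : ℝ) : Prop :=
  n ≤ k → ∃ F ⊆ Ico (m - n) m, th * X = ∑ i ∈ F, (2 / 3 : ℝ) ^ (m - i) * um ∧
    x * ((2 / 3) ^ (n + 1) * um) = W - th * X ∧ 1 / 48 ≤ x ∧ x < 3 - 1 / 48 ∧
    (1 ≤ n → 1 / 32 ≤ x ∧ x < 3 - 1 / 32)

lemma R_zero {um th W : ℝ} {k m n : ℕ} {X : ℤ} {x : ℝ} (h : R um th W k m n X x)
    (hx : x < 2 - 1 / 48) : R um th W k m (n + 1) X (3 / 2 * x) := by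
  intro hn
  obtain ⟨F, hF, e1, e2, h1, h2, -⟩ := h (by omega)
  refine ⟨F, hF.trans (Ico_subset_Ico_left (by omega)), e1, ?_, by linarith, by linarith,
    fun _ => ⟨by linarith, by linarith⟩⟩
  rw [← e2, pow_succ _ (n + 1)]; ring

lemma R_one {um th W : ℝ} {k m n : ℕ} {X : ℤ} {x : ℝ} (hth : th * 3 ^ k = 2 * um) (hkm : k ≤ m)
    (h : R um th W k m n X x) (hx : 1 + 1 / 48 ≤ x) :
    R um th W k m (n + 1) (X + 3 ^ (k - 1 - n) * 2 ^ n) (3 / 2 * x - 3 / 2) := by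
  classical
  intro hn
  obtain ⟨F, hF, e1, e2, h1, h2, -⟩ := h (by omega)
  have hnot : m - (n + 1) ∉ F := fun hh => by have := mem_Ico.1 (hF hh); omega
  have key : th * (3 ^ (k - 1 - n) * 2 ^ n) = (2 / 3 : ℝ) ^ (n + 1) * um := by
    obtain ⟨d, rfl⟩ : ∃ d, k = n + 1 + d := ⟨k - (n + 1), by omega⟩
    have e : n + 1 + d - 1 - n = d := by omega
    have e3 : um = th * 3 ^ (n + 1 + d) / 2 := by linarith
    rw [e, e3, div_pow, pow_add 3 (n + 1) d, pow_succ 2 n]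
    field_simp
  refine ⟨insert (m - (n + 1)) F, ?_, ?_, ?_, by linarith, by linarith,
    fun _ => ⟨by linarith, by linarith⟩⟩
  · refine insert_subset (mem_Ico.2 ⟨le_rfl, by omega⟩) (hF.trans (Ico_subset_Ico_left (by omega)))
  · have e : m - (m - (n + 1)) = n + 1 := by omega
    rw [sum_insert hnot, e, ← e1, ← key]; push_cast; ring
  · push_cast
    rw [mul_add, key, ← sub_sub, ← e2, pow_succ _ (n + 1)]; ring

lemma floor_close {a d : ℝ} {N : ℕ} (hd : |d| ≤ 4 * N) :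
    ⌊a + d⌋ - ⌊a⌋ ∈ Icc (-(4 * (N : ℤ) + 1)) (4 * N + 1) := by
  obtain ⟨h1, h2⟩ := abs_le.1 hd
  have a1 := Int.floor_le a
  have a2 := Int.lt_floor_add_one a
  have a3 := Int.floor_le (a + d)
  have a4 := Int.lt_floor_add_one (a + d)
  refine mem_Icc.2 ⟨?_, ?_⟩
  · have : ((-(4 * (N : ℤ) + 1) : ℤ) : ℝ) ≤ ((⌊a + d⌋ - ⌊a⌋ : ℤ) : ℝ) := by push_cast; linarith
    exact_mod_cast this
  · have : ((⌊a + d⌋ - ⌊a⌋ : ℤ) : ℝ) ≤ ((4 * (N : ℤ) + 1 : ℤ) : ℝ) := by push_cast; linarith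
    exact_mod_cast this

lemma log_card {b a N : ℕ} (h : b ≤ a * (8 * N + 3)) :
    Real.log b ≤ Real.log a + 3 * Real.log 2 + Real.log (N + 1) := by
  have l2 : 0 < Real.log 2 := Real.log_pos (by norm_num)
  have hN : (0 : ℝ) ≤ N := Nat.cast_nonneg N
  have l3 : 0 ≤ Real.log (N + 1) := Real.log_nonneg (by linarith)
  rcases Nat.eq_zero_or_pos b with rfl | hb
  · have := Real.log_natCast_nonneg a
    simp only [Nat.cast_zero, Real.log_zero]; linarith
  · have ha : 0 < a := by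
      rcases Nat.eq_zero_or_pos a with rfl | ha
      · omega
      · exact ha
    have ha' : (0 : ℝ) < a := by exact_mod_cast ha
    have hb' : (0 : ℝ) < b := by exact_mod_cast hb
    have h' : (b : ℝ) ≤ a * (8 * N + 3) := by exact_mod_cast h
    have : (b : ℝ) ≤ a * 2 ^ 3 * (N + 1) := by nlinarith
    have h2 := Real.log_le_log hb' this
    rw [Real.log_mul (by positivity) (by positivity), Real.log_mul (by positivity) (by positivity),
      Real.log_pow] at h2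
    push_cast at h2; linarith

end Stage

open Stage in
theorem p_Stage (hS : S_Sumset) (hI : S_Ideal) : S_Stage := by
  classical
  intro u π p j hu hp hne
  obtain ⟨I1, I2, I3⟩ := hI u hu
  obtain ⟨k21, -, hjk, hlin, -, hlo, hhi, -⟩ := I3 j
  have I1' := I1 j (j + kk u j) (by omega)
  have I2' := I2 j (j + kk u j)
  have hNk : nz u j (j + kk u j) ≤ kk u j := by
    have := card_filter_le (Ico j (j + kk u j)) (fun n => 2 * u (n + 1) ≠ 3 * u n)
    simpa [nz] using this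
  generalize kk u j = k at *
  generalize nz u j (j + k) = N at *
  have hmj : j + k - j = k := by omega
  rw [hmj] at I1'
  obtain ⟨m, hm⟩ : ∃ m, m = j + k := ⟨_, rfl⟩
  rw [← hm] at hne hlo hhi I1' I2' ⊢
  clear I1 I2 I3 hmj
  have hum : (0 : ℝ) < u m := by exact_mod_cast hu.pos m
  have huj : (0 : ℝ) < u j := by exact_mod_cast hu.pos j
  have h3k : (0 : ℝ) < 3 ^ k := by positivity
  have h2k : (0 : ℝ) < 2 ^ k := by positivity
  obtain ⟨th, hth⟩ : ∃ th : ℝ, th * 3 ^ k = 2 * u m := ⟨2 * u m / 3 ^ k, by field_simp⟩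
  have th1 : 1 / 2 ≤ th := by nlinarith
  have th3 : th ≤ 3 := by nlinarith
  have th0 : 0 < th := by linarith
  obtain ⟨L, hL⟩ : ∃ L : ℤ, L = 2 ^ (k - 10) := ⟨_, rfl⟩
  have hL0 : 0 < L := by rw [hL]; positivity
  have hLk : L * 1024 = 2 ^ k := by
    have e : k = k - 10 + 10 := by omega
    rw [hL]; conv_rhs => rw [e, pow_add]
    norm_num
  have hLk' : (L : ℝ) * 1024 = 2 ^ k := by exact_mod_cast hLk
  have hpw := pow_bd k21
  have hdiv : ∀ y ∈ As u π m, 3 ^ k / 120 ≤ (y : ℝ) / th ∧ (y : ℝ) / th ≤ 119 / 120 * 3 ^ k := by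
    intro y hy
    obtain ⟨c1, c2⟩ := (hu.mem_As.1 hy).1
    have c1' : (u m : ℝ) ≤ 60 * y := by exact_mod_cast c1
    have c2' : (60 : ℝ) * y ≤ 119 * u m := by exact_mod_cast c2
    rw [le_div_iff₀ th0, div_le_iff₀ th0]
    constructor <;> nlinarith
  obtain ⟨w, hw1, hw2⟩ := cell (As u π m) hne (fun y : ℤ => ⌊(y : ℝ) / th⌋) L (3 ^ k) hL0
    (by
      have : (L : ℝ) ≤ 3 ^ k := by
        have : (0 : ℝ) < L := by exact_mod_cast hL0
        linarith
      exact_mod_cast this)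
    (by
      intro y hy
      obtain ⟨d1, d2⟩ := hdiv y hy
      refine ⟨Int.floor_nonneg.2 (by linarith [div_pos h3k (by norm_num : (0 : ℝ) < 120)]), ?_⟩
      have : ((⌊(y : ℝ) / th⌋ : ℤ) : ℝ) ≤ ((3 ^ k : ℤ) : ℝ) := by
        have := Int.floor_le ((y : ℝ) / th)
        push_cast; linarith
      exact_mod_cast this)
  obtain ⟨S, hSd⟩ : ∃ S, S = (As u π m).filter (fun y : ℤ => ⌊(y : ℝ) / th⌋ / L = w) := ⟨_, rfl⟩
  rw [← hSd] at hw1 hw2
  have hcell : ∀ y ∈ S, y ∈ As u π m ∧ w * L ≤ ⌊(y : ℝ) / th⌋ ∧ ⌊(y : ℝ) / th⌋ + 1 ≤ w * L + L := by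
    intro y hy
    rw [hSd] at hy
    obtain ⟨h1, h2⟩ := mem_filter.1 hy
    have a1 := Int.mul_ediv_add_emod ⌊(y : ℝ) / th⌋ L
    have a2 := Int.emod_nonneg ⌊(y : ℝ) / th⌋ hL0.ne'
    have a3 := Int.emod_lt_of_pos ⌊(y : ℝ) / th⌋ hL0
    rw [h2, mul_comm] at a1
    exact ⟨h1, by omega, by omega⟩
  have hcell' : ∀ y ∈ S, (w : ℝ) * L ≤ (y : ℝ) / th ∧ (y : ℝ) / th < w * L + L := by
    intro y hy
    obtain ⟨-, h1, h2⟩ := hcell y hy
    have h1' : (w : ℝ) * L ≤ ⌊(y : ℝ) / th⌋ := by exact_mod_cast h1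
    have h2' : ((⌊(y : ℝ) / th⌋ : ℤ) : ℝ) + 1 ≤ w * L + L := by exact_mod_cast h2
    exact ⟨h1'.trans (Int.floor_le _), (Int.lt_floor_add_one _).trans_le h2'⟩
  obtain ⟨y0, hy0⟩ : ∃ y0 : ℝ, y0 * 3 ^ k = 3 * (w * L) := ⟨3 * (w * L) / 3 ^ k, by field_simp⟩
  have y01 : 1 / 48 ≤ y0 ∧ y0 < 3 - 1 / 48 := by
    obtain ⟨y, hy⟩ := hw1
    obtain ⟨d1, d2⟩ := hdiv y (hcell y hy).1
    obtain ⟨d3, d4⟩ := hcell' y hy
    constructor
    · by_contra hc
      have := mul_lt_mul_of_pos_right (not_le.1 hc) h3k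
      linarith
    · by_contra hc
      have := mul_le_mul_of_nonneg_right (not_lt.1 hc) h3k.le
      linarith
  have main := hS p (fun n => 3 ^ (k - 1 - n)) y0 (R (u m) th (w * L * th) k m) k 46 (63 / 100)
    (S.image (fun y : ℤ => ⌊(y : ℝ) / th⌋))
    ((As u π j ×ˢ Icc (-(4 * (N : ℤ) + 1)) (4 * N + 1)).image
      (fun zs : ℤ × ℤ => ⌊(zs.1 : ℝ) / th⌋ + zs.2))
    hp.nn hp.le (fun n => Odd.pow (by decide))
    (by
      intro _
      refine ⟨∅, empty_subset _, by simp, ?_, y01.1, y01.2, fun h => by omega⟩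
      have e : (u m : ℝ) = th * 3 ^ k / 2 := by linarith
      rw [e]; push_cast
      linear_combination (th / 3) * hy0)
    (fun n X y h hy => R_zero h (hp.lt y hy))
    (fun n X y h hy => R_one hth (by omega) h (hp.pos y hy))
    (by norm_num) (fun n hn _ => hp.bd n hn y0 y01.1 y01.2) (hw1.image _)
    (by
      intro q hq q' hq' e
      obtain ⟨y, hy, rfl⟩ := mem_image.1 hq
      obtain ⟨y', hy', rfl⟩ := mem_image.1 hq'
      obtain ⟨-, a1, a2⟩ := hcell y hy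
      obtain ⟨-, a3, a4⟩ := hcell y' hy'
      have := Int.eq_zero_of_abs_lt_dvd e.dvd (abs_lt.2 ⟨by omega, by omega⟩)
      omega)
    (by
      intro q hq X x hR
      obtain ⟨y, hy, rfl⟩ := mem_image.1 hq
      obtain ⟨F, hF, e1, e2, -, -, hx⟩ := hR le_rfl
      obtain ⟨x1, x2⟩ := hx (by omega)
      have hmk : m - k = j := by omega
      rw [hmk] at hF
      obtain ⟨d3, d4⟩ := hcell' y hy
      rw [le_div_iff₀ th0] at d3
      rw [div_lt_iff₀ th0] at d4
      obtain ⟨D, hD⟩ : ∃ D : ℝ, D = ∑ i ∈ F, ((u i : ℝ) - (2 / 3) ^ (m - i) * u m) := ⟨_, rfl⟩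
      have hD1 : |D| ≤ 2 * N := by
        rw [hD]
        exact (abs_sum_le_sum_abs _ _).trans
          ((sum_le_sum_of_subset_of_nonneg hF fun i _ _ => abs_nonneg _).trans I2')
      have hz : ((y - ∑ i ∈ F, u i : ℤ) : ℝ) = y - th * X - D := by
        rw [hD, sum_sub_distrib, e1]; push_cast; ring
      obtain ⟨uh, huh⟩ : ∃ uh : ℝ, uh = (2 / 3) ^ k * u m := ⟨_, rfl⟩
      have huL : uh = 512 * (L * th) := by
        have e : (u m : ℝ) = th * 3 ^ k / 2 := by linarith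
        rw [huh, e, div_pow, ← hLk']; field_simp; ring
      rw [← huh] at I1'
      have e2' : x * (2 / 3 * uh) = w * L * th - th * X := by
        rw [← e2, huh, pow_succ]; ring
      obtain ⟨b1, b2⟩ := abs_le.1 I1'
      obtain ⟨b3, b4⟩ := abs_le.1 hD1
      have hlin' : (1000 : ℝ) * (2 * k + 4) ≤ u j := by exact_mod_cast hlin
      have hNk' : (N : ℝ) ≤ k := by exact_mod_cast hNk
      have hk0 : (0 : ℝ) ≤ k := Nat.cast_nonneg k
      have uh0 : 0 < uh := by linarith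
      have m1 : 1 / 32 * (2 / 3 * uh) ≤ x * (2 / 3 * uh) :=
        mul_le_mul_of_nonneg_right x1 (by linarith)
      have m2 : x * (2 / 3 * uh) ≤ (3 - 1 / 32) * (2 / 3 * uh) :=
        mul_le_mul_of_nonneg_right x2.le (by linarith)
      have hcore : Core u j (y - ∑ i ∈ F, u i) := by
        constructor
        · have : (u j : ℝ) ≤ 60 * ((y - ∑ i ∈ F, u i : ℤ) : ℝ) := by rw [hz]; nlinarith
          exact_mod_cast this
        · have : 60 * ((y - ∑ i ∈ F, u i : ℤ) : ℝ) ≤ 119 * (u j : ℝ) := by rw [hz]; nlinarith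
          exact_mod_cast this
      have hmem : y - ∑ i ∈ F, u i ∈ As u π j :=
        hu.mem_As.2 ⟨hcore, (hu.mem_As.1 (hcell y hy).1).2.desc (by omega) hF⟩
      have hDt : |D / th| ≤ 4 * N := by
        rw [abs_div, abs_of_pos th0, div_le_iff₀ th0]
        have : (0 : ℝ) ≤ N := Nat.cast_nonneg N
        nlinarith
      have hfl := floor_close (a := ((y - ∑ i ∈ F, u i : ℤ) : ℝ) / th) hDt
      refine ⟨_, mem_image.2 ⟨(_, _), mem_product.2 ⟨hmem, hfl⟩, rfl⟩, ?_⟩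
      have e : ((y - ∑ i ∈ F, u i : ℤ) : ℝ) / th + D / th = y / th - X := by
        rw [hz]; field_simp; ring
      simp only [e, Int.floor_sub_intCast, add_sub_cancel]
      rfl)
  have l2 : 0 < Real.log 2 := Real.log_pos (by norm_num)
  have c1 : ((As u π j ×ˢ Icc (-(4 * (N : ℤ) + 1)) (4 * N + 1)).image
      (fun zs : ℤ × ℤ => ⌊(zs.1 : ℝ) / th⌋ + zs.2)).card ≤ (As u π j).card * (8 * N + 3) := by
    refine card_image_le.trans ?_
    rw [card_product, Int.card_Icc]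
    exact Nat.mul_le_mul_left _ (by omega)
  have c2 := log_card c1
  have c3 : Real.log (u j) ≤ k * Real.log 2 := by
    rw [← Real.log_pow]
    refine Real.log_le_log huj ?_
    exact_mod_cast hjk.le
  have c4 := fibre S th0 th3
  obtain ⟨a, ha⟩ : ∃ a : ℕ, a = (S.image (fun y : ℤ => ⌊(y : ℝ) / th⌋)).card := ⟨_, rfl⟩
  have ha0 : 0 < a := by rw [ha]; exact card_pos.2 (hw1.image _)
  rw [← ha] at main c4
  have ha0' : (0 : ℝ) < a := by exact_mod_cast ha0
  have hm0 : (0 : ℝ) < (As u π m).card := by exact_mod_cast card_pos.2 hne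
  have c5 : ((As u π m).card : ℝ) * 2 ^ k ≤ 2 ^ 15 * u m * a := by
    have w2 : ((As u π m).card : ℝ) * L ≤ 2 * 3 ^ k * S.card := by exact_mod_cast hw2
    have w3 : (S.card : ℝ) ≤ 4 * a := by exact_mod_cast c4
    have w4 : (3 : ℝ) ^ k * S.card ≤ (4 * u m) * (4 * a) :=
      mul_le_mul hlo w3 (Nat.cast_nonneg _) (by linarith)
    rw [← hLk']; nlinarith
  have c6 := Real.log_le_log (by positivity) c5
  rw [Real.log_mul (by positivity) (by positivity), Real.log_mul (by positivity) (by positivity),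
    Real.log_mul (by positivity) (by positivity), Real.log_pow, Real.log_pow] at c6
  push_cast at c6 main
  linarith

end Pool.Agent.P.MP_0ff3a5_nt.TH
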