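import Pool.Agent.P.MP_0ff3a5_nt.TH.Spec

/-! Ratio three halves: the entropy form of the sumset inequality modulo powers of two. -/

namespace Pool.Agent.P.MP_0ff3a5_nt.TH
open Finset

namespace Sumset

/-- expectation along the steered chain -/
noncomputable def Ex (p : ℝ → ℝ) (c : ℕ → ℤ) (y0 : ℝ) : ℕ → (ℤ → ℝ → ℝ) → ℝ
  | 0, F => F 0 y0
  | n + 1, F => Ex p c y0 n fun X y =>
      (1 - p y) * F X (3 / 2 * y) + p y * F (X + c n * 2 ^ n) (3 / 2 * y - 3 / 2)

variable {p : ℝ → ℝ} {c : ℕ → ℤ} {y0 : ℝ} {n : ℕ} {F G : ℤ → ℝ → ℝ}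

lemma Ex_mono (h0 : ∀ y, 0 ≤ p y) (h1 : ∀ y, p y ≤ 1) (h : ∀ X y, F X y ≤ G X y) :
    Ex p c y0 n F ≤ Ex p c y0 n G := by
  induction n generalizing F G with
  | zero => exact h _ _
  | succ n ih =>
    exact ih fun X y => add_le_add (mul_le_mul_of_nonneg_left (h _ _) (sub_nonneg.2 (h1 y)))
      (mul_le_mul_of_nonneg_left (h _ _) (h0 y))

lemma Ex_add : Ex p c y0 n (fun X y => F X y + G X y) = Ex p c y0 n F + Ex p c y0 n G := by
  induction n generalizing F G with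
  | zero => rfl
  | succ n ih =>
    simp only [Ex]
    rw [← ih]
    congr 1
    funext X y
    ring

lemma Ex_mul (a : ℝ) : Ex p c y0 n (fun X y => F X y * a) = Ex p c y0 n F * a := by
  induction n generalizing F with
  | zero => rfl
  | succ n ih =>
    simp only [Ex]
    rw [← ih]
    congr 1
    funext X y
    ring

lemma Ex_U (g : ℝ → ℝ) : Ex p c y0 n (fun _ y => g y) = (U p)^[n] g y0 := by
  induction n generalizing g with
  | zero => rfl
  | succ n ih => exact ih (U p g)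

lemma Ex_const (a : ℝ) : Ex p c y0 n (fun _ _ => a) = a := by
  induction n with
  | zero => rfl
  | succ n ih =>
    simp only [Ex]
    rw [← ih]
    congr 1
    funext X y
    rw [ih]
    ring

lemma Ex_sum {ι : Type} (s : Finset ι) (f : ι → ℤ → ℝ → ℝ) :
    Ex p c y0 n (fun X y => ∑ i ∈ s, f i X y) = ∑ i ∈ s, Ex p c y0 n (f i) := by
  classical
  induction s using Finset.induction_on with
  | empty => simpa using Ex_const 0
  | insert a s ha ih => simp only [sum_insert ha]; rw [Ex_add, ih]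

lemma Ex_nonneg (h0 : ∀ y, 0 ≤ p y) (h1 : ∀ y, p y ≤ 1) (h : ∀ X y, 0 ≤ F X y) :
    0 ≤ Ex p c y0 n F :=
  (Ex_const 0).ge.trans (Ex_mono h0 h1 h)

lemma jensen (hA : S_PsiA) (h0 : ∀ y, 0 ≤ p y) (h1 : ∀ y, p y ≤ 1) (hF : ∀ X y, 0 ≤ F X y)
    (hG : ∀ X y, 0 ≤ G X y) :
    psi (Ex p c y0 n F) (Ex p c y0 n G) ≤ Ex p c y0 n fun X y => psi (F X y) (G X y) := by
  induction n generalizing F G with
  | zero => exact le_rfl
  | succ n ih =>
    have key : ∀ {H : ℤ → ℝ → ℝ}, (∀ X y, 0 ≤ H X y) → ∀ X y, 0 ≤ (1 - p y) * H X (3 / 2 * y) +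
        p y * H (X + c n * 2 ^ n) (3 / 2 * y - 3 / 2) := fun hH X y =>
      add_nonneg (mul_nonneg (sub_nonneg.2 (h1 y)) (hH _ _)) (mul_nonneg (h0 y) (hH _ _))
    exact (ih (key hF) (key hG)).trans (Ex_mono h0 h1 fun X y =>
      hA.2 _ _ _ _ _ (hF _ _) (hG _ _) (hF _ _) (hG _ _) (h0 y) (h1 y))

lemma Ex_zero {R : ℕ → ℤ → ℝ → Prop} (h0 : ∀ y, 0 ≤ p y) (h1 : ∀ y, p y ≤ 1) (r0 : R 0 0 y0)
    (r1 : ∀ n X y, R n X y → p y < 1 → R (n + 1) X (3 / 2 * y))
    (r2 : ∀ n X y, R n X y → 0 < p y → R (n + 1) (X + c n * 2 ^ n) (3 / 2 * y - 3 / 2))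
    (h : ∀ X y, R n X y → F X y = 0) : Ex p c y0 n F = 0 := by
  induction n generalizing F with
  | zero => exact h _ _ r0
  | succ n ih =>
    refine ih fun X y r => ?_
    have e1 : (1 - p y) * F X (3 / 2 * y) = 0 := by
      rcases (h1 y).eq_or_lt with e | e
      · rw [e, sub_self, zero_mul]
      · rw [h _ _ (r1 n X y r e), mul_zero]
    have e2 : p y * F (X + c n * 2 ^ n) (3 / 2 * y - 3 / 2) = 0 := by
      rcases (h0 y).eq_or_lt with e | e
      · rw [← e, zero_mul]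
      · rw [h _ _ (r2 n X y r e), mul_zero]
    rw [e1, e2, add_zero]

/-- a compatible family of distributions modulo `2 ^ n` -/
structure Tw (ν : ℕ → ℤ → ℝ) : Prop where
  nn : ∀ n z, 0 ≤ ν n z
  zero : ν 0 0 = 1
  split : ∀ n z, ν n z = ν (n + 1) z + ν (n + 1) (z + 2 ^ n)

/-- minus the entropy -/
noncomputable def Ent (ν : ℕ → ℤ → ℝ) (n : ℕ) : ℝ :=
  ∑ z ∈ range (2 ^ n), ν n z * Real.log (ν n z)

/-- missing entropy of the digit `n` -/
noncomputable def top (ν : ℕ → ℤ → ℝ) (n : ℕ) : ℝ :=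
  ∑ z ∈ range (2 ^ n), psi (ν (n + 1) z) (ν (n + 1) (z + 2 ^ n))

variable {ν : ℕ → ℤ → ℝ}

lemma sum_dbl (g : ℤ → ℝ) (n : ℕ) :
    ∑ z ∈ range (2 ^ (n + 1)), g z = ∑ z ∈ range (2 ^ n), (g z + g (z + 2 ^ n)) := by
  rw [pow_succ, mul_two, sum_range_add, sum_add_distrib]
  congr 1
  exact sum_congr rfl fun z _ => by push_cast; rw [add_comm]

lemma Tw.mass (h : Tw ν) (n : ℕ) : ∑ z ∈ range (2 ^ n), ν n z = 1 := by
  induction n with
  | zero => simpa using h.zero
  | succ n ih => rw [sum_dbl (ν (n + 1)), ← ih]; exact sum_congr rfl fun z _ => (h.split n z).symm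

lemma Tw.ent (h : Tw ν) (n : ℕ) : Ent ν n + n * Real.log 2 = ∑ i ∈ range n, top ν i := by
  induction n with
  | zero => simp [Ent, h.zero]
  | succ n ih =>
    have e : top ν n = Ent ν (n + 1) - Ent ν n + (∑ z ∈ range (2 ^ n), ν n z) * Real.log 2 := by
      rw [Ent, sum_dbl fun z => ν (n + 1) z * Real.log (ν (n + 1) z), Ent, sum_mul,
        ← sum_sub_distrib, ← sum_add_distrib]
      refine sum_congr rfl fun z _ => ?_
      rw [psi, ← h.split]
      rcases eq_or_ne (ν n z) 0 with e | e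
      · rw [e]; ring
      · rw [Real.log_div e two_ne_zero]; ring
    rw [sum_range_succ, ← ih, e, h.mass]
    push_cast
    ring

lemma Tw.top_bd (h : Tw ν) (hA : S_PsiA) (n : ℕ) : 0 ≤ top ν n ∧ top ν n ≤ Real.log 2 := by
  refine ⟨sum_nonneg fun z _ => (hA.1 _ _ (h.nn _ _) (h.nn _ _)).1, ?_⟩
  rw [← one_mul (Real.log 2), ← h.mass n, sum_mul]
  exact sum_le_sum fun z _ => (hA.1 _ _ (h.nn _ _) (h.nn _ _)).2.trans_eq (by rw [← h.split])

lemma Tw.ent_le (h : Tw ν) {N : ℝ} (hb : ∀ z, ν n z ≤ 1 / N) :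
    Ent ν n ≤ -Real.log N := by
  rw [← one_mul (-Real.log N), ← h.mass n, sum_mul]
  refine sum_le_sum fun z _ => ?_
  rcases (h.nn n z).eq_or_lt with e | e
  · rw [← e]; simp
  · refine mul_le_mul_of_nonneg_left ((Real.log_le_log e (hb z)).trans_eq ?_) e.le
    rw [one_div, Real.log_inv]

lemma Tw.ent_ge (h : Tw ν) {N : ℕ} (S : Finset ℕ) (hN : S.card ≤ N)
    (hS : ∀ z ∈ range (2 ^ n), ν n z ≠ 0 → z ∈ S) : -Real.log N ≤ Ent ν n := by
  have N0 : (0 : ℝ) < N := by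
    obtain ⟨z, hz, hz'⟩ := exists_ne_zero_of_sum_ne_zero ((h.mass n).trans_ne one_ne_zero)
    exact_mod_cast (card_pos.2 ⟨z, hS z hz hz'⟩).trans_le hN
  have key : ∀ z ∈ range (2 ^ n), ν n z * (1 - Real.log N) - (if z ∈ S then 1 else 0) / N ≤
      ν n z * Real.log (ν n z) := fun z hz => by
    rcases (h.nn n z).eq_or_lt with e | e
    · rw [← e, zero_mul, zero_mul, zero_sub, neg_nonpos]
      split_ifs <;> positivity
    · rw [if_pos (hS z hz e.ne')]
      have h1 := Real.one_sub_inv_le_log_of_pos (mul_pos N0 e)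
      rw [Real.log_mul N0.ne' e.ne'] at h1
      have h2 := mul_le_mul_of_nonneg_left h1 e.le
      have h3 : ν n z * ((N : ℝ) * ν n z)⁻¹ = 1 / N := by field_simp
      rw [mul_sub, h3] at h2
      linarith
  refine le_trans ?_ (sum_le_sum key)
  rw [sum_sub_distrib, ← sum_mul, h.mass, ← sum_div, sum_boole]
  have h1 : (((range (2 ^ n)).filter fun z => z ∈ S).card : ℝ) ≤ N := by
    exact_mod_cast (card_le_card fun z hz => (mem_filter.1 hz).2).trans hN
  have := (div_le_one N0).2 h1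
  linarith

lemma sum_shift (g : ℤ → ℝ) (N : ℕ) (hg : ∀ z, g (z + N) = g z) (X : ℤ) :
    ∑ z ∈ range N, g (z + X) = ∑ z ∈ range N, g z := by
  have step : ∀ Y : ℤ, ∑ z ∈ range N, g (z + (Y + 1)) = ∑ z ∈ range N, g (z + Y) := fun Y => by
    have h1 := sum_range_succ (fun z : ℕ => g (z + Y)) N
    rw [sum_range_succ', add_comm (N : ℤ), hg] at h1
    simp only [Nat.cast_zero, zero_add, add_left_inj] at h1
    rw [← h1]
    exact sum_congr rfl fun z _ => by push_cast; congr 1; ring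
  induction X using Int.induction_on with
  | zero => simp
  | succ i ih => rw [step, ih]
  | pred i ih => rw [← step, sub_add_cancel, ih]

/-- the uniform distribution on `A` modulo `2 ^ n` -/
noncomputable def mu (A : Finset ℤ) (n : ℕ) (z : ℤ) : ℝ :=
  (∑ q ∈ A, if (2 : ℤ) ^ n ∣ z - q then 1 else 0) / A.card

variable {A : Finset ℤ}

lemma mu_per (z t : ℤ) : mu A n (z + 2 ^ n * t) = mu A n z := by
  unfold mu
  congr 1
  refine sum_congr rfl fun q _ => if_congr ?_ rfl rfl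
  rw [add_sub_right_comm]
  exact dvd_add_left (Dvd.intro t rfl)

lemma mu_tw (hA : A.Nonempty) : Tw (mu A) := by
  have h0 : (0 : ℝ) < A.card := by exact_mod_cast hA.card_pos
  refine ⟨fun n z => div_nonneg (sum_nonneg fun q _ => by split_ifs <;> norm_num) h0.le,
    by simp [mu, h0.ne'], fun n z => ?_⟩
  unfold mu
  rw [← add_div, ← sum_add_distrib]
  congr 1
  refine sum_congr rfl fun q _ => ?_
  have hp : (2 : ℤ) ^ n ≠ 0 := by positivity
  rw [add_sub_right_comm]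
  generalize z - q = w
  by_cases h : (2 : ℤ) ^ n ∣ w
  · obtain ⟨t, rfl⟩ := h
    rw [if_pos (Dvd.intro t rfl), ← mul_add_one, pow_succ]
    simp only [mul_dvd_mul_iff_left hp]
    split_ifs <;> first | omega | norm_num
  · have h2 : (2 : ℤ) ^ n ∣ 2 ^ (n + 1) := pow_dvd_pow 2 n.le_succ
    rw [if_neg h, if_neg fun h1 => h (h2.trans h1),
      if_neg fun h1 => h ((dvd_add_left dvd_rfl).1 (h2.trans h1)), add_zero]

/-- the distribution of `q - X` modulo `2 ^ n` -/
noncomputable def om (p : ℝ → ℝ) (c : ℕ → ℤ) (y0 : ℝ) (A : Finset ℤ) (n : ℕ) (z : ℤ) : ℝ :=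
  Ex p c y0 n fun X _ => mu A n (z + X)

lemma om_succ (hc : Odd (c n)) (z : ℤ) : om p c y0 A (n + 1) z = (Ex p c y0 n fun X y =>
      (1 - p y) * mu A (n + 1) (z + X) + p y * mu A (n + 1) (z + X + 2 ^ n)) ∧
    om p c y0 A (n + 1) (z + 2 ^ n) = Ex p c y0 n fun X y =>
      (1 - p y) * mu A (n + 1) (z + X + 2 ^ n) + p y * mu A (n + 1) (z + X) := by
  obtain ⟨t, ht⟩ := hc
  constructor
  · simp only [om, Ex]
    congr 1
    funext X y
    rw [← mu_per (z + X + 2 ^ n) t, ht]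
    congr 3
    ring
  · simp only [om, Ex]
    congr 1
    funext X y
    rw [← mu_per (z + X) (t + 1), ht]
    congr 3 <;> ring

lemma om_tw (h0 : ∀ y, 0 ≤ p y) (h1 : ∀ y, p y ≤ 1) (hc : ∀ n, Odd (c n)) (hA : A.Nonempty) :
    Tw (om p c y0 A) := by
  have h := mu_tw hA
  refine ⟨fun n z => Ex_nonneg h0 h1 fun _ _ => h.nn _ _, h.zero, fun n z => ?_⟩
  rw [(om_succ (hc n) z).1, (om_succ (hc n) z).2, ← Ex_add, om]
  congr 1
  funext X y
  rw [h.split]
  ring

lemma top_om (hA : S_PsiA) (hB : S_PsiB) (h0 : ∀ y, 0 ≤ p y) (h1 : ∀ y, p y ≤ 1) (hc : Odd (c n))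
    (hne : A.Nonempty) :
    top (om p c y0 A) n ≤ (U p)^[n] (fun y => (1 - 2 * p y) ^ 2) y0 * top (mu A) n := by
  have h := mu_tw hne
  have nn : ∀ y a b, 0 ≤ (1 - p y) * mu A (n + 1) a + p y * mu A (n + 1) b := fun y a b =>
    add_nonneg (mul_nonneg (sub_nonneg.2 (h1 y)) (h.nn _ _)) (mul_nonneg (h0 y) (h.nn _ _))
  have e : ∀ X : ℤ, ∑ z ∈ range (2 ^ n), psi (mu A (n + 1) (z + X))
      (mu A (n + 1) (z + X + 2 ^ n)) = top (mu A) n :=
    sum_shift (fun z => psi (mu A (n + 1) z) (mu A (n + 1) (z + 2 ^ n))) (2 ^ n) fun z => by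
      push_cast
      rw [show z + 2 ^ n + 2 ^ n = z + 2 ^ (n + 1) * 1 by ring, mu_per, psi, psi,
        add_comm (mu A (n + 1) z)]
      ring
  rw [← Ex_U (c := c), ← Ex_mul]
  calc top (om p c y0 A) n ≤ ∑ z ∈ range (2 ^ n), Ex p c y0 n fun X y => (1 - 2 * p y) ^ 2 *
        psi (mu A (n + 1) (z + X)) (mu A (n + 1) (z + X + 2 ^ n)) := by
        refine sum_le_sum fun z _ => ?_
        rw [(om_succ hc z).1, (om_succ hc z).2]
        exact (jensen hA h0 h1 (fun _ _ => nn _ _ _) fun _ _ => nn _ _ _).trans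
          (Ex_mono h0 h1 fun X y => hB _ _ _ (h.nn _ _) (h.nn _ _) (h0 y) (h1 y))
    _ = _ := by
        rw [← Ex_sum]
        congr 1
        funext X y
        rw [← mul_sum, e]

end Sumset

open Sumset

theorem p_Sumset (hA : S_PsiA) (hB : S_PsiB) : S_Sumset := by
  intro p c y0 R k T b A B h0 h1 hc r0 r1 r2 hb hU hne hinj hsup
  have hm := mu_tw hne
  have ho := om_tw (y0 := y0) h0 h1 hc hne
  have A0 : (0 : ℝ) < A.card := by exact_mod_cast hne.card_pos
  have e1 : Ent (mu A) k ≤ -Real.log A.card := hm.ent_le fun z => by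
    unfold mu
    rw [sum_boole]
    refine div_le_div_of_nonneg_right ?_ A0.le
    exact_mod_cast card_le_one.2 fun q hq q' hq' => hinj q (mem_filter.1 hq).1 q'
      (mem_filter.1 hq').1 ((Int.modEq_iff_dvd.2 (mem_filter.1 hq).2).trans
        (Int.modEq_iff_dvd.2 (mem_filter.1 hq').2).symm)
  have e2 : -Real.log B.card ≤ Ent (om p c y0 A) k := by
    refine ho.ent_ge (B.image fun z => (z % 2 ^ k).toNat) card_image_le fun z hz hz' => ?_
    by_contra hn
    refine hz' (Ex_zero h0 h1 r0 r1 r2 fun X y r => ?_)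
    unfold mu
    rw [sum_eq_zero fun q hq => if_neg fun hd => hn ?_, zero_div]
    obtain ⟨w, hw, e⟩ := hsup q hq X y r
    refine mem_image.2 ⟨w, hw, ?_⟩
    have e3 : w ≡ z [ZMOD 2 ^ k] :=
      e.trans (Int.modEq_iff_dvd.2 (by rwa [show (z : ℤ) - (q - X) = z + X - q by ring]))
    rw [e3, Int.emod_eq_of_lt (by positivity) (by exact_mod_cast mem_range.1 hz), Int.toNat_natCast]
  have e3 : ∑ i ∈ range k, top (om p c y0 A) i ≤
      ∑ i ∈ range k, ((if i ∈ range T then 1 else 0) * Real.log 2 + b * top (mu A) i) := by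
    refine sum_le_sum fun i hi => ?_
    have t0 := (hm.top_bd hA i).1
    split_ifs with hT
    · linarith [(ho.top_bd hA i).2, mul_nonneg hb t0]
    · rw [zero_mul, zero_add]
      exact (top_om hA hB h0 h1 (hc i) hne).trans (mul_le_mul_of_nonneg_right
        (hU i (not_lt.1 fun h => hT (mem_range.2 h)) (mem_range.1 hi)) t0)
  rw [sum_add_distrib, ← sum_mul, ← mul_sum, ← hm.ent, ← ho.ent, sum_boole] at e3
  have e4 : (((range k).filter fun i => i ∈ range T).card : ℝ) ≤ T := by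
    exact_mod_cast (card_le_card fun z hz => (mem_filter.1 hz).2).trans (card_range T).le
  have e5 := mul_le_mul_of_nonneg_right e4 (Real.log_pos one_lt_two).le
  have e6 := mul_le_mul_of_nonneg_left e1 hb
  linarith

end Pool.Agent.P.MP_0ff3a5_nt.TH
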